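import Pool.Agent.H772R2.NS.Pub

/-!
Public definitions: weights in Hardy's inequality, and velocity fields below such a weight.
-/

set_option autoImplicit false

open MeasureTheory Set
open scoped InnerProductSpace ENNReal ContDiff

namespace Pool.Agent.X187.HB

open H772R2.NS.Pub

/-- A weight `h` in Hardy's inequality for the set `Ω`, with the constant `4`:
`∫ h φ² ≤ 4 ∫ |∇φ|²` for all smooth functions `φ` with compact support in `Ω`. -/
def Hardy (Ω : Set R3) (h : R3 → ℝ≥0∞) : Prop :=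
  Measurable h ∧ ∀ φ : R3 → ℝ, ContDiff ℝ ∞ φ → HasCompactSupport φ → tsupport φ ⊆ Ω →
    ∫⁻ x, h x * ENNReal.ofReal (φ x ^ 2) ≤ 4 * ∫⁻ x, ENNReal.ofReal (‖fderiv ℝ φ x‖ ^ 2)

/-- The smallest `|s|` for which `x + s e` is not in `Ω`; for a unit vector `e` this is the distance
of `x` to the complement of `Ω` along the line through `x` in the direction `e`. -/
noncomputable def lineDist (Ω : Set R3) (e x : R3) : ℝ≥0∞ :=
  Metric.infEDist (0 : ℝ) {s : ℝ | x + s • e ∉ Ω}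

/-- The weight `∫ |x - y|⁻² dP(y) + ∫ d_e(x)⁻² dQ(e)`, where `d_e(x)` is the distance to the
complement of `Ω` along the line in the direction `e`. -/
noncomputable def wallPot (Ω : Set R3) (P Q : Measure R3) (x : R3) : ℝ≥0∞ :=
  (∫⁻ y, (edist x y)⁻¹ ^ 2 ∂P) + ∫⁻ e, (lineDist Ω e x)⁻¹ ^ 2 ∂Q

/-- The size of the field `z` relative to the viscosity, in the sense of forms:
`∫_Ω |z|² |φ|² ≤ θ ν² ∫ |∇φ|² + ν β ∫ |φ|²` for all divergence free test fields `φ` in `Ω`. -/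
def Small (Ω : Set R3) (θ ν β : ℝ) (z : R3 → R3) : Prop :=
  ∀ φ : R3 → R3, IsTest Ω φ →
    ∫⁻ x in Ω, ENNReal.ofReal (‖z x‖ ^ 2 * ‖φ x‖ ^ 2)
      ≤ ENNReal.ofReal (θ * ν ^ 2) * (∫⁻ x, ENNReal.ofReal (‖jac φ x‖ ^ 2))
        + ENNReal.ofReal (ν * β) * ∫⁻ x, ENNReal.ofReal (‖φ x‖ ^ 2)

/-- The field `v` in `Ω` is the sum of a smooth field `w` with `ξ·Dw(x)ξ ≥ -b |ξ|²` in `Ω` and of a
field which is small in the sense of forms. -/
def Split {Ω : Set R3} (θ ν b β : ℝ) (v : L2 Ω R3) : Prop :=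
  ∃ w : R3 → R3, ContDiff ℝ ∞ w ∧ (∀ x ∈ Ω, ∀ ξ, -b * ‖ξ‖ ^ 2 ≤ ⟪ξ, fderiv ℝ w x ξ⟫_ℝ) ∧
    Small Ω θ ν β fun x => v.fn x - w x

end Pool.Agent.X187.HB
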