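import Pool.Agent.X187.HB.Form
import Pool.Agent.X187.HB.PubDef

/-!
Fields below a Hardy weight: application to Leray-Hopf solutions in bounded domains.
-/

set_option autoImplicit false

open MeasureTheory Set Filter Topology
open scoped InnerProductSpace ENNReal ContDiff

namespace Pool.Agent.X187.HB

open H772R2.NS.Pub Pool.Agent.W795.TQ
open Pool.Agent.TH340.FF (stretch_tens grad_bdd grad_form)
open Pool.Agent.W795.ES (stretch)

theorem hardy_pub {Ω : Set R3} {h : R3 → ℝ≥0∞} :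
    Hardy Ω h ↔ HardyE (show Set H772R2.NS.E3 from Ω) h := Iff.rfl

/-- smallness, in both forms -/
theorem small_pub {Ω : Set R3} {θ ν β : ℝ} {z : R3 → R3} :
    Small Ω θ ν β z ↔ SmallE (show Set H772R2.NS.E3 from Ω) (θ * ν ^ 2) (ν * β) z := by
  have key : ∀ φ : H772R2.NS.E3 → H772R2.NS.E3, ∀ J J' : H772R2.NS.E3 → H772R2.NS.M3, J = J' →
      ((∫⁻ x in (show Set H772R2.NS.E3 from Ω), ENNReal.ofReal (‖z x‖ ^ 2 * ‖φ x‖ ^ 2)
        ≤ ENNReal.ofReal (θ * ν ^ 2) * (∫⁻ x, ENNReal.ofReal (‖J x‖ ^ 2))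
          + ENNReal.ofReal (ν * β) * ∫⁻ x, ENNReal.ofReal (‖φ x‖ ^ 2)) ↔
      (∫⁻ x in (show Set H772R2.NS.E3 from Ω), ENNReal.ofReal (‖z x‖ ^ 2 * ‖φ x‖ ^ 2)
        ≤ ENNReal.ofReal (θ * ν ^ 2) * (∫⁻ x, ENNReal.ofReal (‖J' x‖ ^ 2))
          + ENNReal.ofReal (ν * β) * ∫⁻ x, ENNReal.ofReal (‖φ x‖ ^ 2))) := by
    rintro φ J J' rfl
    exact Iff.rfl
  constructor
  · intro h φ hφ
    have h1 := h φ ((isTest_iff φ).2 hφ)
    exact (key φ (H772R2.NS.Pub.jac φ) (H772R2.NS.jac φ) (funext (jac_eq φ))).1 h1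
  · intro h φ hφ
    have h1 := h φ ((isTest_iff φ).1 hφ)
    exact (key φ (H772R2.NS.Pub.jac φ) (H772R2.NS.jac φ) (funext (jac_eq φ))).2 h1

/-- the form inequality, public form -/
theorem pub_below {Ω : Set R3} (hΩ : IsOpen Ω) (hb : Bornology.IsBounded Ω) {θ ν b β μ : ℝ}
    (hν : 0 < ν) (hθ : 0 ≤ θ) (hβ : 0 ≤ β) (hμ : 0 < μ) {U : L2 Ω R3} {G : L2 Ω Mat}
    (hU : (U, G) ∈ H1graph Ω) (hs : Split θ ν b β U)
    {p : L2 Ω R3 × L2 Ω Mat} (hp : p ∈ H1graph Ω) :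
    -stretch G p.1 ≤ (θ / (2 * μ) + μ / 2) * ν * ‖p.2‖ ^ 2
      + (β / (2 * μ) + b) * ‖p.1‖ ^ 2 := by
  have hm : MeasurableSet (show Set H772R2.NS.E3 from Ω) :=
    IsOpen.measurableSet (α := H772R2.NS.E3) hΩ
  rw [stretch_tens hm G hp]
  obtain ⟨w, hw, hwb, hle⟩ := hs
  have h1 := form_below (Ω := (show Set H772R2.NS.E3 from Ω)) hm hb (U := U) (G := G)
    (mem_pub.mpr hU) (w := w) hw (b := b) (A := θ * ν ^ 2) (B := ν * β) (c := μ * ν)
    (by positivity) (by positivity) (by positivity) hwb (small_pub.1 hle) (p := p)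
    (mem_pub.mpr hp)
  refine h1.trans (le_of_eq ?_)
  have e1 : θ * ν ^ 2 / (2 * (μ * ν)) + μ * ν / 2 = (θ / (2 * μ) + μ / 2) * ν := by
    field_simp
  have e2 : ν * β / (2 * (μ * ν)) = β / (2 * μ) := by field_simp
  rw [e1, e2]
  rfl

theorem main (Ω : Set R3) (hΩ : IsOpen Ω) (hb : Bornology.IsBounded Ω) (ν T : ℝ) (hν : 0 < ν)
    (hT : 0 < T) (F F' : ℝ → L2 Ω Mat) (hF : IsH1 T F F')
    (u : ℝ → L2 Ω R3) (G : ℝ → L2 Ω Mat) (L : IsLerayHopf Ω ν T F u G)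
    (z0 : L2 Ω Mat) (h0 : (u 0, z0) ∈ H1graph Ω)
    (hg : ∃ g : L2 Ω R3, ∀ φ, IsTest Ω φ → rhs ν (u 0) z0 (F 0) φ = ∫ x in Ω, ⟪g.fn x, φ x⟫_ℝ) :
    (∃ u' G1 G', IsStrong Ω ν T F u u' G1 G') ∨
    ∃ τ ∈ Ioc 0 T, (∀ t ∈ Ioo 0 τ, ∃ u' G1 G', IsStrong Ω ν t F u u' G1 G') ∧
      ∀ θ μ : ℝ, 0 ≤ θ → 0 < μ → θ + μ ^ 2 < 2 * μ → ∀ s ∈ Ico 0 τ, ∃ M : ℝ, ∀ b β : ℝ → ℝ,
        (∀ t, 0 ≤ b t) → (∀ t, 0 ≤ β t) →
        (∀ t ∈ Ioo s τ, IntervalIntegrable b volume s t) →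
        (∀ t ∈ Ioo s τ, IntervalIntegrable β volume s t) →
        (∀ᵐ t ∂(volume.restrict (Ioo s τ)), Split θ ν (b t) (β t) (u t)) →
        ∀ t0 < τ, ∃ t ∈ Ioo t0 τ, s < t ∧
          3 / 2 * μ * Real.log (1 / (τ - t)) - M ≤ ∫ r in s..t, (β r + 2 * μ * b r) := by
  rcases Pool.Agent.Results.MP_fd8964_an.EnergyStability.result Ω hΩ hb ν T hν hT F F' hF u G L
    z0 h0 hg with h1 | ⟨τ, hτ, h1, h2⟩
  · exact Or.inl h1
  refine Or.inr ⟨τ, hτ, h1, fun θ₀ μ hθ₀ hμ hκμ s hs => ?_⟩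
  set θ := θ₀ / (2 * μ) + μ / 2 with hθ
  have hθ0 : 0 < θ := by positivity
  have hθ1 : θ < 1 := by
    have : θ = (θ₀ + μ ^ 2) / (2 * μ) := by rw [hθ]; field_simp
    rw [this, div_lt_one (by positivity)]
    exact hκμ
  set δ := (1 - θ) / 2 with hδ
  have hδ0 : 0 < δ := by rw [hδ]; linarith
  have hm : MeasurableSet (show Set H772R2.NS.E3 from Ω) :=
    IsOpen.measurableSet (α := H772R2.NS.E3) hΩ
  have hgT : ∀ᵐ t ∂(volume.restrict (Ioc 0 τ)), (u t, G t) ∈ H1graph Ω := by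
    have := L.grad
    exact ae_mono (Measure.restrict_mono (Ioc_subset_Ioc_right hτ.2) le_rfl) this
  -- the bound before the time `s`
  obtain ⟨Cs, hCs0, hCs⟩ : ∃ C : ℝ, 0 ≤ C ∧ ∀ᵐ t ∂(volume.restrict (Ioc 0 s)), ∀ p ∈ H1graph Ω,
      -stretch (G t) p.1 ≤ (1 - δ) * ν * ‖p.2‖ ^ 2 + C * ‖p.1‖ ^ 2 := by
    rcases eq_or_lt_of_le hs.1 with h3 | h3
    · refine ⟨0, le_rfl, ?_⟩
      rw [← h3]
      simp
    · obtain ⟨u', G1, G', hst⟩ := h1 s ⟨h3, hs.2⟩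
      obtain ⟨M₁, hM₁⟩ := grad_bdd hΩ hst
        (ae_mono (Measure.restrict_mono (Ioc_subset_Ioc_right hs.2.le) le_rfl) hgT)
      obtain ⟨C, hC, hC2⟩ := grad_form (Ω := (show Set H772R2.NS.E3 from Ω)) hm (M := M₁)
        (ε := (1 - δ) * ν) (by
          have : 0 < 1 - δ := by rw [hδ]; linarith
          positivity)
      refine ⟨C, hC, ?_⟩
      filter_upwards [hM₁] with t ht p hp
      rw [stretch_tens hm (G t) hp]
      exact hC2 (G t) ht p (mem_pub.mpr hp)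
  obtain ⟨Mc, hMc⟩ := h2 0 (fun j => j.elim0) (fun j => j.elim0) δ hδ0 s hs
  refine ⟨2 * μ * Mc, fun b β hb0 hβ0 hbi hβi hyp t0 ht0 => ?_⟩
  set Γ : ℝ → ℝ := fun t => β t / (2 * μ) + b t with hΓ
  have hΓ0 : ∀ t, 0 ≤ Γ t := fun t => by
    have := hβ0 t
    have := hb0 t
    simp only [hΓ]
    positivity
  have hΓi : ∀ t ∈ Ioo s τ, IntervalIntegrable Γ volume s t := fun t ht =>
    ((hβi t ht).div_const _).add (hbi t ht)
  set Λ : ℝ → ℝ := fun t => if t ≤ s then Cs else Γ t with hΛ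
  have hΛ0 : ∀ t, 0 ≤ Λ t := fun t => by
    simp only [hΛ]
    split_ifs
    · exact hCs0
    · exact hΓ0 t
  have hΛs : ∀ t, s ≤ t → EqOn Γ Λ (Ioc s t) := fun t _ r hr => by
    simp only [hΛ]
    rw [if_neg (not_le.2 hr.1)]
  have hΛi : ∀ t ∈ Ioo 0 τ, IntervalIntegrable Λ volume 0 t := by
    intro t ht
    have i1 : ∀ a b, a ≤ b → b ≤ s → IntervalIntegrable Λ volume a b := fun a b hab hb => by
      have : IntervalIntegrable (fun _ : ℝ => Cs) volume a b := intervalIntegrable_const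
      refine this.congr fun r hr => ?_
      rw [uIoc_of_le hab] at hr
      simp only [hΛ]
      rw [if_pos (hr.2.trans hb)]
    rcases le_or_gt t s with h3 | h3
    · exact i1 0 t ht.1.le h3
    · refine (i1 0 s hs.1 le_rfl).trans ?_
      refine (hΓi t ⟨h3, ht.2⟩).congr fun r hr => ?_
      rw [uIoc_of_le h3.le] at hr
      exact hΛs t h3.le hr
  obtain ⟨t, ht, hst, hlog⟩ := hMc Λ hΛ0 hΛi (by
    have a1 : ∀ᵐ t ∂(volume : Measure ℝ), t ∈ Ioc 0 s → ∀ p ∈ H1graph Ω,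
        -stretch (G t) p.1 ≤ (1 - δ) * ν * ‖p.2‖ ^ 2 + Cs * ‖p.1‖ ^ 2 :=
      (ae_restrict_iff' measurableSet_Ioc).1 hCs
    have a2 : ∀ᵐ t ∂(volume : Measure ℝ), t ∈ Ioo s τ → Split θ₀ ν (b t) (β t) (u t) :=
      (ae_restrict_iff' measurableSet_Ioo).1 hyp
    have a3 : ∀ᵐ t ∂(volume : Measure ℝ), t ≠ τ := by simp [ae_iff, measure_singleton]
    have a4 : ∀ᵐ t ∂(volume : Measure ℝ), t ∈ Ioc 0 τ → (u t, G t) ∈ H1graph Ω :=
      (ae_restrict_iff' measurableSet_Ioc).1 hgT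
    rw [ae_restrict_iff' measurableSet_Ioc]
    filter_upwards [a1, a2, a3, a4] with t b1 b2 b3 b4 ht p hp _
    by_cases hts : t ≤ s
    · have e1 : Λ t = Cs := by simp only [hΛ]; rw [if_pos hts]
      rw [e1]
      exact b1 ⟨ht.1, hts⟩ p hp
    · have e1 : Λ t = Γ t := by simp only [hΛ]; rw [if_neg hts]
      rw [e1]
      have hB := b2 ⟨not_le.1 hts, lt_of_le_of_ne ht.2 b3⟩
      have h4 := pub_below hΩ hb hν hθ₀ (hβ0 t) hμ (b4 ht) hB hp
      refine h4.trans ?_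
      have h5 : θ ≤ 1 - δ := by rw [hδ]; linarith
      have h6 : θ * ν * ‖p.2‖ ^ 2 ≤ (1 - δ) * ν * ‖p.2‖ ^ 2 := by gcongr
      rw [hθ] at h6
      linarith) t0 ht0
  refine ⟨t, ht, hst, ?_⟩
  have e2 : ∫ r in s..t, (β r + 2 * μ * b r) = 2 * μ * ∫ r in s..t, Λ r := by
    rw [← intervalIntegral.integral_const_mul]
    refine intervalIntegral.integral_congr_ae ?_
    refine Eventually.of_forall fun r hr => ?_
    rw [uIoc_of_le hst.le] at hr
    rw [← hΛs t hst.le hr]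
    simp only [hΓ]
    field_simp
  rw [e2]
  have := mul_le_mul_of_nonneg_left hlog (by positivity : 0 ≤ 2 * μ)
  linarith

theorem explicit {Ω : Set R3} {ν τ θ μ : ℝ} (hτ : 0 < τ) (hμ : 0 < μ)
    {u : ℝ → L2 Ω R3}
    (H : ∀ s ∈ Ico 0 τ, ∃ M : ℝ, ∀ b β : ℝ → ℝ,
        (∀ t, 0 ≤ b t) → (∀ t, 0 ≤ β t) →
        (∀ t ∈ Ioo s τ, IntervalIntegrable b volume s t) →
        (∀ t ∈ Ioo s τ, IntervalIntegrable β volume s t) →
        (∀ᵐ t ∂(volume.restrict (Ioo s τ)), Split θ ν (b t) (β t) (u t)) →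
        ∀ t0 < τ, ∃ t ∈ Ioo t0 τ, s < t ∧
          3 / 2 * μ * Real.log (1 / (τ - t)) - M ≤ ∫ r in s..t, (β r + 2 * μ * b r))
    {a b t1 : ℝ} (ha : 0 ≤ a) (hb : 0 ≤ b) (hab : a + 2 * μ * b < 3 / 2 * μ) (ht1 : t1 < τ)
    (hyp : ∀ᵐ t ∂(volume.restrict (Ioo t1 τ)),
      Split θ ν (b / (τ - t)) (a / (τ - t)) (u t)) : False := by
  set γ := a + 2 * μ * b with hγ
  have hγ0 : 0 ≤ γ := by positivity
  set s := max t1 0 with hs
  have hsτ : s < τ := max_lt ht1 hτ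
  have hs0 : 0 ≤ s := le_max_right _ _
  obtain ⟨M, hM⟩ := H s ⟨hs0, hsτ⟩
  have hcont : ∀ q : ℝ, ∀ t ∈ Ioo s τ, ContinuousOn (fun t => q / |τ - t|) (uIcc s t) := by
    intro q t ht
    rw [uIcc_of_le ht.1.le]
    refine continuousOn_const.div (continuous_const.sub continuous_id).abs.continuousOn
      fun r hr => ?_
    have : 0 < τ - r := by linarith [hr.2, ht.2]
    exact abs_ne_zero.2 this.ne'
  have h1 := hM (fun t => b / |τ - t|) (fun t => a / |τ - t|) (fun t => by positivity)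
    (fun t => by positivity)
    (fun t ht => (hcont b t ht).intervalIntegrable)
    (fun t ht => (hcont a t ht).intervalIntegrable) (by
      have h2 : ∀ᵐ t ∂(volume.restrict (Ioo s τ)),
          Split θ ν (b / (τ - t)) (a / (τ - t)) (u t) :=
        ae_mono (Measure.restrict_mono (Ioo_subset_Ioo_left (le_max_left _ _)) le_rfl) hyp
      filter_upwards [h2, ae_restrict_mem measurableSet_Ioo] with t ht htI
      have hp : 0 < τ - t := by linarith [htI.2]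
      rw [abs_of_pos hp]
      exact ht)
  -- the integral
  have hint : ∀ t ∈ Ioo s τ, ∫ r in s..t, (a / |τ - r| + 2 * μ * (b / |τ - r|))
      = γ * (Real.log (1 / (τ - t)) - Real.log (1 / (τ - s))) := by
    intro t ht
    have hder : ∀ r ∈ uIcc s t, HasDerivAt (fun r => γ * Real.log (1 / (τ - r)))
        (a / |τ - r| + 2 * μ * (b / |τ - r|)) r := by
      intro r hr
      rw [uIcc_of_le ht.1.le] at hr
      have hp : 0 < τ - r := by linarith [hr.2, ht.2]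
      have e1 : (fun r => γ * Real.log (1 / (τ - r))) = fun r => γ * -Real.log (τ - r) := by
        funext r
        rw [one_div, Real.log_inv]
      rw [e1]
      refine (((((hasDerivAt_id r).const_sub τ).log hp.ne').neg).const_mul γ).congr_deriv ?_
      rw [abs_of_pos hp]
      simp only [id]
      rw [hγ]
      ring
    rw [intervalIntegral.integral_eq_sub_of_hasDerivAt hder
      (((hcont a t ht).intervalIntegrable).add
        (((hcont b t ht).intervalIntegrable).const_mul (2 * μ)))]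
    ring
  -- a time at which the logarithm is large
  set A := (|M| + γ * |Real.log (1 / (τ - s))| + 1) / (3 / 2 * μ - γ) with hA
  have hgp : 0 < 3 / 2 * μ - γ := by linarith
  obtain ⟨t, ht, hst, hle⟩ := h1 (τ - Real.exp (-A)) (by linarith [Real.exp_pos (-A)])
  rw [hint t ⟨hst, ht.2⟩] at hle
  have hp : 0 < τ - t := by linarith [ht.2]
  have h3 : A < Real.log (1 / (τ - t)) := by
    rw [one_div, Real.log_inv, lt_neg, Real.log_lt_iff_lt_exp hp]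
    linarith [ht.1]
  have h4 : (3 / 2 * μ - γ) * A = |M| + γ * |Real.log (1 / (τ - s))| + 1 := by
    rw [hA, mul_comm, div_mul_cancel₀ _ hgp.ne']
  have h5 : (3 / 2 * μ - γ) * A < (3 / 2 * μ - γ) * Real.log (1 / (τ - t)) :=
    mul_lt_mul_of_pos_left h3 hgp
  have h6 := le_abs_self M
  have h7 : -(γ * Real.log (1 / (τ - s))) ≤ γ * |Real.log (1 / (τ - s))| := by
    rw [← mul_neg]
    exact mul_le_mul_of_nonneg_left (neg_le_abs _) hγ0
  nlinarith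

/-- fields below a Hardy weight are small -/
theorem weight_pub {Ω : Set R3} {h : R3 → ℝ≥0∞} (hh : Hardy Ω h) {κ ν β : ℝ} {z : R3 → R3}
    (hz : ∀ᵐ x ∂(volume.restrict Ω), ENNReal.ofReal (‖z x‖ ^ 2)
      ≤ ENNReal.ofReal (κ ^ 2 * ν ^ 2) * h x + ENNReal.ofReal (ν * β)) :
    Small Ω (4 * κ ^ 2) ν β z := by
  rw [small_pub, mul_assoc]
  exact weight_small (Ω := (show Set H772R2.NS.E3 from Ω)) hh hz

/-- the weights of walls and points -/
theorem wallPot_pub {Ω : Set R3} (hΩ : IsOpen Ω) (hb : Bornology.IsBounded Ω) (P Q : Measure R3)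
    (hP : IsFiniteMeasure P) (hQ : IsFiniteMeasure Q)
    (hPQ : ∀ w : R3, P univ * ENNReal.ofReal (‖w‖ ^ 2)
      + ∫⁻ e, ENNReal.ofReal (⟪e, w⟫_ℝ ^ 2) ∂Q ≤ ENNReal.ofReal (‖w‖ ^ 2)) :
    Hardy Ω (wallPot Ω P Q) :=
  @hardy_wallPot (show Set H772R2.NS.E3 from Ω) hΩ hb P Q hP hQ hPQ

theorem convex_pub {Ω : Set R3} (hΩ : IsOpen Ω) (hb : Bornology.IsBounded Ω)
    (hcv : Convex ℝ Ω) : Hardy Ω fun x => (Metric.infEDist x Ωᶜ)⁻¹ ^ 2 :=
  hardy_convex (Ω := (show Set H772R2.NS.E3 from Ω)) hΩ hb hcv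

end Pool.Agent.X187.HB
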