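import Pool.Agent.X187.HB.Weights
import Pool.Agent.TH340.FF.LH3

/-!
The form inequality for fields below a Hardy weight.
-/

set_option autoImplicit false

open MeasureTheory Set Filter Topology Metric
open scoped InnerProductSpace ENNReal ContDiff

namespace Pool.Agent.X187.HB

open H772R2.NS Pool.Agent.TH340.FF

variable {Ω : Set E3} {φ : E3 → E3}

/-- the square of the norm of the Jacobian matrix -/
noncomputable def J2 (φ : E3 → E3) (x : E3) : ℝ := ∑ i, ∑ j, jac φ x (i, j) ^ 2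

theorem J2_nonneg (φ : E3 → E3) (x : E3) : 0 ≤ J2 φ x :=
  Finset.sum_nonneg fun _ _ => Finset.sum_nonneg fun _ _ => sq_nonneg _

theorem J2_cont (h : ContDiff ℝ ∞ φ) : Continuous (J2 φ) :=
  continuous_finsetSum _ fun i _ => continuous_finsetSum _ fun j _ => (cont_jac_coord h i j).pow 2

theorem J2_comp (hc : HasCompactSupport φ) : HasCompactSupport (J2 φ) := by
  refine HasCompactSupport.of_support_subset_isCompact hc.isCompact fun x hx => ?_
  by_contra h
  have : jac φ x = 0 := image_eq_zero_of_notMem_tsupport fun hc => h (tsupport_jac_subset hc)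
  exact hx (by simp [J2, this])

theorem sqi (h : IsTest Ω φ) : Integrable fun x => ∑ i, φ x i ^ 2 := by
  refine integrable_finsetSum _ fun i _ => ?_
  have h1 : HasCompactSupport fun x => φ x i ^ 2 :=
    (hasCompactSupport_coord h.compact i).comp_left (g := fun y : ℝ => y ^ 2) (by simp)
  exact ((contDiff_coord h.smooth i).continuous.pow 2).integrable_of_hasCompactSupport h1

theorem f1_norm (φ : E3 → E3) (x : E3) : ‖f1 φ x‖ ^ 2 ≤ ‖φ x‖ ^ 2 * J2 φ x := by
  rw [norm_sq_E3, norm_sq_E3]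
  unfold J2
  rw [Finset.mul_sum]
  refine Finset.sum_le_sum fun i _ => ?_
  show (∑ j, φ x j * jac φ x (i, j)) ^ 2 ≤ (∑ j, φ x j ^ 2) * ∑ j, jac φ x (i, j) ^ 2
  exact Finset.sum_mul_sq_le_sq_mul_sq Finset.univ (fun j => φ x j) fun j => jac φ x (i, j)

theorem fderiv_norm (h : ContDiff ℝ ∞ φ) (i : Fin 3) (x : E3) :
    ‖fderiv ℝ (fun y => φ y i) x‖ ^ 2 = ∑ j, jac φ x (i, j) ^ 2 := by
  obtain ⟨w, hw, hL⟩ := riesz (fderiv ℝ (fun y => φ y i) x)
  rw [← hw, ← sum_single_sq]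
  refine Finset.sum_congr rfl fun j _ => ?_
  rw [jac_eq_coord h, ← hL]

theorem J2_eq (φ : E3 → E3) (x : E3) : J2 φ x = ‖jac φ x‖ ^ 2 := by
  rw [← real_inner_self_eq_norm_sq, inner_M3]
  exact Finset.sum_congr rfl fun i _ => Finset.sum_congr rfl fun j _ => by ring

/-- smallness in the sense of forms, in terms of `E3` -/
def SmallE (Ω : Set E3) (a c : ℝ) (z : E3 → E3) : Prop :=
  ∀ φ : E3 → E3, IsTest Ω φ →
    ∫⁻ x in Ω, ENNReal.ofReal (‖z x‖ ^ 2 * ‖φ x‖ ^ 2)
      ≤ ENNReal.ofReal a * (∫⁻ x, ENNReal.ofReal (‖jac φ x‖ ^ 2))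
        + ENNReal.ofReal c * ∫⁻ x, ENNReal.ofReal (‖φ x‖ ^ 2)

/-- fields below a Hardy weight are small -/
theorem weight_small {k : E3 → ℝ≥0∞} (hk : HardyE Ω k) {Z : E3 → E3} {A B : ℝ}
    (hle : ∀ᵐ x ∂(volume.restrict Ω), ENNReal.ofReal (‖Z x‖ ^ 2)
      ≤ ENNReal.ofReal A * k x + ENNReal.ofReal B) : SmallE Ω (4 * A) B Z := by
  intro φ h
  have hsm := h.smooth
  have hJi : Integrable (J2 φ) :=
    (J2_cont hsm).integrable_of_hasCompactSupport (J2_comp h.compact)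
  have mi : ∀ i, Measurable fun x => ENNReal.ofReal (φ x i ^ 2) := fun i =>
    ((contDiff_coord hsm i).continuous.pow 2).measurable.ennreal_ofReal
  have hpt : ∀ᵐ x ∂(volume.restrict Ω), ENNReal.ofReal (‖Z x‖ ^ 2 * ‖φ x‖ ^ 2)
      ≤ ENNReal.ofReal A * ∑ i, k x * ENNReal.ofReal (φ x i ^ 2)
        + ENNReal.ofReal B * ENNReal.ofReal (‖φ x‖ ^ 2) := by
    filter_upwards [hle] with x hx
    rw [← Finset.mul_sum, ← ENNReal.ofReal_sum_of_nonneg fun i _ => by positivity,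
      ← norm_sq_E3, ENNReal.ofReal_mul (by positivity), ← mul_assoc, ← add_mul]
    exact mul_le_mul_left hx _
  have m1 : Measurable fun x => ∑ i, k x * ENNReal.ofReal (φ x i ^ 2) :=
    Finset.measurable_fun_sum _ fun i _ => hk.1.mul (mi i)
  have m2 : Measurable fun x => ENNReal.ofReal (‖φ x‖ ^ 2) :=
    (hsm.continuous.norm.pow 2).measurable.ennreal_ofReal
  calc ∫⁻ x in Ω, ENNReal.ofReal (‖Z x‖ ^ 2 * ‖φ x‖ ^ 2)
      ≤ ∫⁻ x in Ω, (ENNReal.ofReal A * ∑ i, k x * ENNReal.ofReal (φ x i ^ 2)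
        + ENNReal.ofReal B * ENNReal.ofReal (‖φ x‖ ^ 2)) := lintegral_mono_ae hpt
    _ ≤ ∫⁻ x, (ENNReal.ofReal A * ∑ i, k x * ENNReal.ofReal (φ x i ^ 2)
        + ENNReal.ofReal B * ENNReal.ofReal (‖φ x‖ ^ 2)) := setLIntegral_le_lintegral _ _
    _ = (ENNReal.ofReal A * ∑ i, ∫⁻ x, k x * ENNReal.ofReal (φ x i ^ 2))
        + ENNReal.ofReal B * ∫⁻ x, ENNReal.ofReal (‖φ x‖ ^ 2) := by
        rw [lintegral_add_left (m1.const_mul _), lintegral_const_mul _ m1,
          lintegral_const_mul _ m2]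
        congr 2
        exact lintegral_finsetSum _ fun i _ => hk.1.mul (mi i)
    _ ≤ (ENNReal.ofReal A * ∑ i, 4 * ∫⁻ x, ENNReal.ofReal (∑ j, jac φ x (i, j) ^ 2))
        + ENNReal.ofReal B * ∫⁻ x, ENNReal.ofReal (‖φ x‖ ^ 2) := by
        gcongr with i
        have h1 := hk.2 (fun x => φ x i) (contDiff_coord hsm i)
          (hasCompactSupport_coord h.compact i)
          ((closure_mono (t := Function.support φ)
            fun x (hx : φ x i ≠ 0) h0 => hx (by rw [h0]; rfl)).trans h.supp)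
        simp_rw [fderiv_norm hsm i] at h1
        exact h1
    _ = _ := by
        congr 1
        rw [← Finset.mul_sum, ← lintegral_finsetSum, ENNReal.ofReal_mul (by norm_num), mul_assoc,
          mul_left_comm]
        · rw [show ENNReal.ofReal 4 = (4 : ℝ≥0∞) by simp]
          congr 3
          funext x
          rw [← J2_eq]
          exact (ENNReal.ofReal_sum_of_nonneg fun i _ => by positivity).symm
        · intro i _
          exact (continuous_finsetSum _ fun j _ =>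
            (cont_jac_coord hsm i j).pow 2).measurable.ennreal_ofReal

/-- the integral bound -/
theorem small_int (h : IsTest Ω φ) {Z : E3 → E3} {A B : ℝ} (hA : 0 ≤ A) (hB : 0 ≤ B)
    (hZ : SmallE Ω A B Z) (hi : Integrable fun x => ‖Z x‖ ^ 2 * ‖φ x‖ ^ 2) :
    ∫ x, ‖Z x‖ ^ 2 * ‖φ x‖ ^ 2 ≤ A * (∫ x, J2 φ x) + B * ∫ x, ∑ i, φ x i ^ 2 := by
  have hsm := h.smooth
  have hJi : Integrable (J2 φ) :=
    (J2_cont hsm).integrable_of_hasCompactSupport (J2_comp h.compact)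
  have hφi : Integrable fun x => ∑ i, φ x i ^ 2 := sqi h
  have hJ0 : 0 ≤ ∫ x, J2 φ x := integral_nonneg fun x => J2_nonneg φ x
  have hφ0 : 0 ≤ ∫ x, ∑ i, φ x i ^ 2 := integral_nonneg fun x => by positivity
  have hz : ∀ x ∉ Ω, φ x = 0 := fun x hx =>
    image_eq_zero_of_notMem_tsupport fun hc => hx (h.supp hc)
  have key : ENNReal.ofReal (∫ x, ‖Z x‖ ^ 2 * ‖φ x‖ ^ 2)
      ≤ ENNReal.ofReal (A * (∫ x, J2 φ x) + B * ∫ x, ∑ i, φ x i ^ 2) := by
    rw [ofReal_integral_eq_lintegral_ofReal hi (Eventually.of_forall fun x => by positivity)]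
    have e0 : ∫⁻ x, ENNReal.ofReal (‖Z x‖ ^ 2 * ‖φ x‖ ^ 2)
        = ∫⁻ x in Ω, ENNReal.ofReal (‖Z x‖ ^ 2 * ‖φ x‖ ^ 2) := by
      refine (setLIntegral_eq_of_support_subset ?_).symm
      intro x hx
      by_contra hxΩ
      exact hx (by simp [hz x hxΩ])
    rw [e0]
    refine (hZ φ h).trans (le_of_eq ?_)
    rw [ENNReal.ofReal_add (by positivity) (by positivity), ENNReal.ofReal_mul hA,
      ENNReal.ofReal_mul hB,
      ofReal_integral_eq_lintegral_ofReal hφi (Eventually.of_forall fun x => by positivity),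
      ofReal_integral_eq_lintegral_ofReal hJi (Eventually.of_forall fun x => J2_nonneg φ x)]
    simp_rw [J2_eq, ← norm_sq_E3]
  exact (ENNReal.ofReal_le_ofReal_iff (by positivity)).1 key

/-- The form inequality for a test field -/
theorem test_form (hΩ : MeasurableSet Ω) (hb : Bornology.IsBounded Ω) (h : IsTest Ω φ)
    {U : L2V Ω} {w : E3 → E3} (hw : ContDiff ℝ ∞ w) {b A B c : ℝ}
    (hA : 0 ≤ A) (hB : 0 ≤ B) (hc : 0 < c)
    (hwb : ∀ x ∈ Ω, ∀ ξ, -b * ‖ξ‖ ^ 2 ≤ ⟪ξ, fderiv ℝ w x ξ⟫_ℝ)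
    (hle : SmallE Ω A B fun x => (U : E3 → E3) x - w x) :
    ∫ x, ∑ i, ext Ω U x i * f1 φ x i
      ≤ (A / (2 * c) + c / 2) * (∫ x, J2 φ x) + (B / (2 * c) + b) * ∫ x, ∑ i, φ x i ^ 2 := by
  have hsm := h.smooth
  have hz : ∀ x ∉ Ω, φ x = 0 := fun x hx =>
    image_eq_zero_of_notMem_tsupport fun hc => hx (h.supp hc)
  have hJi : Integrable (J2 φ) :=
    (J2_cont hsm).integrable_of_hasCompactSupport (J2_comp h.compact)
  have hφi : Integrable fun x => ∑ i, φ x i ^ 2 := sqi h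
  have hfc : Continuous (f1 φ) := f1_cont hsm
  have hfcc : HasCompactSupport (f1 φ) := f1_comp h.compact
  have hfi : ∀ i, Continuous fun x => f1 φ x i := fun i =>
    (EuclideanSpace.proj (𝕜 := ℝ) i : E3 →L[ℝ] ℝ).continuous.comp hfc
  have hfic : ∀ i, HasCompactSupport fun x => f1 φ x i := fun i => hasCompactSupport_coord hfcc i
  set Z : E3 → E3 := fun x => ext Ω U x - w x with hZ
  have i1 : Integrable fun x => ∑ i, ext Ω U x i * f1 φ x i :=
    integrable_finsetSum _ fun i _ => int_W (ext_integrable hΩ hb U) (hfi i) (hfic i) i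
  have i2 : Integrable fun x => ∑ i, w x i * f1 φ x i :=
    integrable_finsetSum _ fun i _ =>
      (((contDiff_coord hw i).continuous).mul (hfi i)).integrable_of_hasCompactSupport
        (hfic i).mul_left
  have i3 : Integrable fun x => ∑ i, Z x i * f1 φ x i := by
    refine (i1.sub i2).congr (Eventually.of_forall fun x => ?_)
    simp only [Pi.sub_apply, hZ]
    rw [← Finset.sum_sub_distrib]
    refine Finset.sum_congr rfl fun i _ => ?_
    rw [PiLp.sub_apply]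
    ring
  have e1 : ∫ x, ∑ i, ext Ω U x i * f1 φ x i
      = (∫ x, ∑ i, Z x i * f1 φ x i) + ∫ x, ∑ i, w x i * f1 φ x i := by
    rw [← integral_add i3 i2]
    refine integral_congr_ae (Eventually.of_forall fun x => ?_)
    simp only [hZ]
    rw [← Finset.sum_add_distrib]
    refine Finset.sum_congr rfl fun i _ => ?_
    rw [PiLp.sub_apply]
    ring
  -- the smooth part
  have hpart2 : ∫ x, ∑ i, w x i * f1 φ x i ≤ b * ∫ x, ∑ i, φ x i ^ 2 := by
    rw [smooth_test h hw, ← integral_neg, ← integral_const_mul]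
    have i5 : Integrable fun x => ∑ i, ∑ j, φ x i * φ x j * jac w x (i, j) := by
      refine integrable_finsetSum _ fun i _ => integrable_finsetSum _ fun j _ => ?_
      exact (((contDiff_coord hsm i).continuous.mul (contDiff_coord hsm j).continuous).mul
        (cont_jac_coord hw i j)).integrable_of_hasCompactSupport
        ((hasCompactSupport_coord h.compact i).mul_right.mul_right)
    refine integral_mono i5.neg (hφi.const_mul b) fun x => ?_
    show -(∑ i, ∑ j, φ x i * φ x j * jac w x (i, j)) ≤ b * ∑ i, φ x i ^ 2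
    by_cases hx : x ∈ Ω
    · have h2 := hwb x hx (φ x)
      have e2 : ⟪φ x, fderiv ℝ w x (φ x)⟫_ℝ = ∑ i, ∑ j, φ x i * φ x j * jac w x (i, j) := by
        rw [inner_E3]
        refine Finset.sum_congr rfl fun i _ => ?_
        have e3 : fderiv ℝ w x (φ x) i = ∑ j, φ x j * jac w x (i, j) := by
          conv_lhs => rw [← sum_single (φ x)]
          rw [map_sum, WithLp.ofLp_sum, Finset.sum_apply]
          refine Finset.sum_congr rfl fun j _ => ?_
          rw [map_smul]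
          rfl
        rw [e3, Finset.mul_sum]
        exact Finset.sum_congr rfl fun j _ => by ring
      rw [← e2, ← norm_sq_E3]
      linarith
    · rw [hz x hx]; simp
  -- the part below the weight
  have hM : MemLp (ext Ω U) 2 (volume : Measure E3) := by
    unfold TH340.FF.ext
    rw [memLp_indicator_iff_restrict hΩ]
    exact Lp.memLp U
  obtain ⟨C, hC⟩ := hsm.continuous.bounded_above_of_compact_support h.compact
  have hMZ : MemLp (fun x => ‖φ x‖ • Z x) 2 (volume : Measure E3) := by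
    have m1 : MemLp (fun x => ‖φ x‖ • ext Ω U x) 2 (volume : Measure E3) := by
      refine hM.of_le_mul (c := C) (hsm.continuous.norm.aestronglyMeasurable.smul
        hM.aestronglyMeasurable) (Eventually.of_forall fun x => ?_)
      rw [norm_smul, norm_norm]
      gcongr
      exact hC x
    have m2 : MemLp (fun x => ‖φ x‖ • w x) 2 (volume : Measure E3) := by
      have hwc : Continuous w := hw.continuous
      refine (hsm.continuous.norm.smul hwc).memLp_of_hasCompactSupport ?_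
      exact h.compact.norm.smul_right
    refine (m1.sub m2).congr_norm ?_ (Eventually.of_forall fun x => ?_)
    · exact (hsm.continuous.norm.aestronglyMeasurable.smul
        (hM.aestronglyMeasurable.sub hw.continuous.aestronglyMeasurable))
    · simp only [Pi.sub_apply, hZ, smul_sub]
  have i6 : Integrable fun x => ‖Z x‖ ^ 2 * ‖φ x‖ ^ 2 := by
    have := (memLp_two_iff_integrable_sq_norm hMZ.aestronglyMeasurable).1 hMZ
    refine this.congr (Eventually.of_forall fun x => ?_)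
    simp only [norm_smul, norm_norm]
    ring
  have hsZ : SmallE Ω A B Z := fun ψ hψ => by
    refine le_trans (le_of_eq ?_) (hle ψ hψ)
    refine setLIntegral_congr_fun hΩ fun x hxΩ => ?_
    have : Z x = (U : E3 → E3) x - w x := by simp only [hZ, TH340.FF.ext, indicator_of_mem hxΩ]
    simp only [this]
  have hw1 := small_int (Z := Z) h hA hB hsZ i6
  have hpart1 : ∫ x, ∑ i, Z x i * f1 φ x i
      ≤ 1 / (2 * c) * (∫ x, ‖Z x‖ ^ 2 * ‖φ x‖ ^ 2) + c / 2 * ∫ x, J2 φ x := by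
    rw [← integral_const_mul, ← integral_const_mul,
      ← integral_add (i6.const_mul _) (hJi.const_mul _)]
    refine integral_mono i3 ((i6.const_mul _).add (hJi.const_mul _)) fun x => ?_
    show ∑ i, Z x i * f1 φ x i ≤ 1 / (2 * c) * (‖Z x‖ ^ 2 * ‖φ x‖ ^ 2) + c / 2 * J2 φ x
    rw [← inner_E3]
    have h3 := real_inner_le_norm (Z x) (f1 φ x)
    have h4 := f1_norm φ x
    have h5 := J2_nonneg φ x
    refine h3.trans ?_
    have h6 : (‖Z x‖ * ‖f1 φ x‖) ^ 2 ≤ (1 / (2 * c) * (‖Z x‖ ^ 2 * ‖φ x‖ ^ 2)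
        + c / 2 * J2 φ x) ^ 2 := by
      have e4 : (1 / (2 * c) * (‖Z x‖ ^ 2 * ‖φ x‖ ^ 2) + c / 2 * J2 φ x) ^ 2
          = (1 / (2 * c) * (‖Z x‖ ^ 2 * ‖φ x‖ ^ 2) - c / 2 * J2 φ x) ^ 2
            + ‖Z x‖ ^ 2 * (‖φ x‖ ^ 2 * J2 φ x) := by
        field_simp
        ring
      rw [e4, mul_pow]
      have : ‖Z x‖ ^ 2 * ‖f1 φ x‖ ^ 2 ≤ ‖Z x‖ ^ 2 * (‖φ x‖ ^ 2 * J2 φ x) := by gcongr
      nlinarith [sq_nonneg (1 / (2 * c) * (‖Z x‖ ^ 2 * ‖φ x‖ ^ 2) - c / 2 * J2 φ x)]
    exact le_of_pow_le_pow_left₀ (by norm_num) (by positivity) h6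
  have hJ0 : 0 ≤ ∫ x, J2 φ x := integral_nonneg fun x => J2_nonneg φ x
  rw [e1]
  have h7 : 1 / (2 * c) * (∫ x, ‖Z x‖ ^ 2 * ‖φ x‖ ^ 2)
      ≤ 1 / (2 * c) * (A * (∫ x, J2 φ x) + B * ∫ x, ∑ i, φ x i ^ 2) := by gcongr
  have e5 : 1 / (2 * c) * (A * (∫ x, J2 φ x) + B * ∫ x, ∑ i, φ x i ^ 2)
      = A / (2 * c) * (∫ x, J2 φ x) + B / (2 * c) * ∫ x, ∑ i, φ x i ^ 2 := by
    field_simp
  rw [e5] at h7
  nlinarith

/-- **The form inequality** for small fields -/
theorem form_below (hΩ : MeasurableSet Ω) (hb : Bornology.IsBounded Ω) {U : L2V Ω} {G : L2M Ω} (hU : (U, G) ∈ graphW Ω)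
    {w : E3 → E3} (hw : ContDiff ℝ ∞ w) {b A B c : ℝ} (hA : 0 ≤ A) (hB : 0 ≤ B) (hc : 0 < c)
    (hwb : ∀ x ∈ Ω, ∀ ξ, -b * ‖ξ‖ ^ 2 ≤ ⟪ξ, fderiv ℝ w x ξ⟫_ℝ)
    (hle : SmallE Ω A B fun x => (U : E3 → E3) x - w x)
    {p : L2V Ω × L2M Ω} (hpW : p ∈ graphW Ω) :
    -⟪tensL p.1, G⟫_ℝ ≤ (A / (2 * c) + c / 2) * ‖p.2‖ ^ 2 + (B / (2 * c) + b) * ‖p.1‖ ^ 2 := by
  have key := graphW_le (fun p => -⟪tensL p.1, G⟫_ℝ - (A / (2 * c) + c / 2) * ‖p.2‖ ^ 2
    - (B / (2 * c) + b) * ‖p.1‖ ^ 2) (form_cont hΩ G _ _) (fun q hq => ?_) hpW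
  · linarith
  have hqW := preW_le hq
  obtain ⟨φ, h1, h2, h3⟩ := hq
  have t1 := int_f1 hΩ h1 hqW h2 hU
  have t2 := test_form hΩ hb h1 (U := U) hw hA hB hc hwb hle
  have t3 : ‖q.2‖ ^ 2 = ∫ x, J2 φ x := norm_test2 h1 h3
  rw [t1, ← norm_test1 h1 h2, ← t3] at t2
  linarith

end Pool.Agent.X187.HB
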