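import Mathlib

/-!
Hardy's inequality with the distance to the complement of an open subset of the line.
-/

set_option autoImplicit false

open MeasureTheory Set Filter Topology Metric

namespace Pool.Agent.X187.HB

/-- the distance function has the slope `±1` away from the closed set -/
theorem dist_slope {A : Set ℝ} (hA : IsClosed A) (hne : A.Nonempty) {s : ℝ} (hs : s ∉ A)
    {d' : ℝ} (hd : HasDerivAt (fun t => infDist t A) d' s) : d' ^ 2 = 1 := by
  obtain ⟨c, hc, hcd⟩ := hA.exists_infDist_eq_dist hne s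
  have hpos : 0 < infDist s A := (hA.notMem_iff_infDist_pos hne).1 hs
  have hup : ∀ t, infDist t A ≤ |t - c| := fun t => by
    have := infDist_le_dist_of_mem (x := t) hc
    rwa [Real.dist_eq] at this
  have hlow : ∀ t, infDist s A - |t - s| ≤ infDist t A := fun t => by
    have := infDist_le_infDist_add_dist (s := A) (x := s) (y := t)
    rw [dist_comm, Real.dist_eq] at this
    linarith
  have hup' : ∀ t, infDist t A ≤ infDist s A + |t - s| := fun t => by
    have := infDist_le_infDist_add_dist (s := A) (x := t) (y := s)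
    rw [Real.dist_eq] at this
    linarith
  rw [Real.dist_eq] at hcd
  have hcs : c ≠ s := by
    rintro rfl
    exact hs hc
  rcases lt_or_gt_of_ne hcs with h | h
  · -- the nearest point is on the left, so the slope is `1`
    have e : ∀ᶠ t in 𝓝[<] s, infDist t A = infDist s A + (t - s) := by
      filter_upwards [Ioo_mem_nhdsLT h] with t ht
      have h1 := hup t
      have h2 := hlow t
      rw [abs_of_pos (by linarith [ht.1])] at h1
      rw [abs_of_neg (by linarith [ht.2])] at h2
      rw [abs_of_pos (by linarith)] at hcd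
      linarith
    have h1 : HasDerivWithinAt (fun t => infDist t A) d' (Iio s) s := hd.hasDerivWithinAt
    have h2 : HasDerivWithinAt (fun t => infDist s A + (t - s)) 1 (Iio s) s :=
      (((hasDerivAt_id s).sub_const s).const_add _).hasDerivWithinAt
    have h3 : HasDerivWithinAt (fun t => infDist t A) 1 (Iio s) s :=
      h2.congr_of_eventuallyEq e (by simp)
    have := UniqueDiffWithinAt.eq_deriv (Iio s) (uniqueDiffWithinAt_Iio s) h1 h3
    rw [this]; norm_num
  · have e : ∀ᶠ t in 𝓝[>] s, infDist t A = infDist s A - (t - s) := by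
      filter_upwards [Ioo_mem_nhdsGT h] with t ht
      have h1 := hup t
      have h2 := hlow t
      rw [abs_of_neg (by linarith [ht.2])] at h1
      rw [abs_of_pos (by linarith [ht.1])] at h2
      rw [abs_of_neg (by linarith)] at hcd
      linarith
    have h1 : HasDerivWithinAt (fun t => infDist t A) d' (Ioi s) s := hd.hasDerivWithinAt
    have h2 : HasDerivWithinAt (fun t => infDist s A - (t - s)) (-1) (Ioi s) s :=
      (((hasDerivAt_id s).sub_const s).const_sub _).hasDerivWithinAt
    have h3 : HasDerivWithinAt (fun t => infDist t A) (-1) (Ioi s) s :=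
      h2.congr_of_eventuallyEq e (by simp)
    have := UniqueDiffWithinAt.eq_deriv (Ioi s) (uniqueDiffWithinAt_Ioi s) h1 h3
    rw [this]; norm_num

/-- the distance function is concave away from the closed set -/
theorem dist_concave {A : Set ℝ} (hA : IsClosed A) (hne : A.Nonempty) {s r : ℝ} (hr : 0 ≤ r)
    (hrs : r ≤ infDist s A) : infDist (s + r) A + infDist (s - r) A ≤ 2 * infDist s A := by
  obtain ⟨c, hc, hcd⟩ := hA.exists_infDist_eq_dist hne s
  have h1 := infDist_le_dist_of_mem (x := s + r) hc
  have h2 := infDist_le_dist_of_mem (x := s - r) hc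
  rw [Real.dist_eq] at hcd h1 h2
  rcases le_total c s with h | h
  · rw [abs_of_nonneg (by linarith)] at hcd
    rw [abs_of_nonneg (by linarith)] at h1
    rw [abs_of_nonneg (by linarith)] at h2
    linarith
  · rw [abs_of_nonpos (by linarith)] at hcd
    rw [abs_of_nonpos (by linarith)] at h1
    rw [abs_of_nonpos (by linarith)] at h2
    linarith

/-- the discrete form: products of differences have nonnegative integral -/
theorem discrete {ψ d : ℝ → ℝ} (hψ : Continuous ψ) (hψc : HasCompactSupport ψ)
    (hd : Continuous d) (hψ0 : ∀ s, 0 ≤ ψ s) {r : ℝ}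
    (hcon : ∀ s, ψ s ≠ 0 → d (s + r) + d (s - r) ≤ 2 * d s) :
    0 ≤ ∫ s, (ψ (s + r) - ψ s) * (d (s + r) - d s) := by
  have i1 : Integrable fun s => ψ s * (d s - d (s - r)) :=
    (hψ.mul (hd.sub (hd.comp (continuous_id.sub continuous_const)))).integrable_of_hasCompactSupport
      hψc.mul_right
  have i2 : Integrable fun s => ψ s * (d (s + r) - d s) :=
    (hψ.mul ((hd.comp (continuous_id.add continuous_const)).sub hd)).integrable_of_hasCompactSupport
      hψc.mul_right
  have i1' : Integrable fun s => ψ (s + r) * (d (s + r) - d s) := by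
    have := i1.comp_add_right r
    simpa using this
  have e1 : ∫ s, ψ (s + r) * (d (s + r) - d s) = ∫ s, ψ s * (d s - d (s - r)) := by
    have := integral_add_right_eq_self (μ := (volume : Measure ℝ))
      (fun s => ψ s * (d s - d (s - r))) r
    simpa using this
  have e2 : ∫ s, (ψ (s + r) - ψ s) * (d (s + r) - d s)
      = ∫ s, ψ s * (2 * d s - (d (s + r) + d (s - r))) := by
    calc ∫ s, (ψ (s + r) - ψ s) * (d (s + r) - d s)
        = ∫ s, (ψ (s + r) * (d (s + r) - d s) - ψ s * (d (s + r) - d s)) := by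
          congr 1; funext s; ring
      _ = (∫ s, ψ (s + r) * (d (s + r) - d s)) - ∫ s, ψ s * (d (s + r) - d s) :=
          integral_sub i1' i2
      _ = (∫ s, ψ s * (d s - d (s - r))) - ∫ s, ψ s * (d (s + r) - d s) := by rw [e1]
      _ = ∫ s, (ψ s * (d s - d (s - r)) - ψ s * (d (s + r) - d s)) := (integral_sub i1 i2).symm
      _ = _ := by congr 1; funext s; ring
  rw [e2]
  refine integral_nonneg fun s => ?_
  by_cases h : ψ s = 0
  · simp [h]
  · exact mul_nonneg (hψ0 s) (by linarith [hcon s h])

/-- the limit of the discrete form -/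
theorem limit_form {ψ d : ℝ → ℝ} {L : NNReal} (hψl : LipschitzWith L ψ)
    (hψc : HasCompactSupport ψ) (hd : LipschitzWith 1 d) (hψ0 : ∀ s, 0 ≤ ψ s) {ρ : ℝ} (hρ : 0 < ρ)
    (hcon : ∀ r, 0 < r → r ≤ ρ → ∀ s, ψ s ≠ 0 → d (s + r) + d (s - r) ≤ 2 * d s) :
    0 ≤ ∫ s, deriv ψ s * deriv d s := by
  obtain ⟨R, hR⟩ := hψc.isBounded.subset_closedBall (0 : ℝ)
  have hR' : ∀ s, R < |s| → ψ s = 0 := fun s hs => by
    by_contra h
    have := hR (subset_tsupport _ h)
    rw [mem_closedBall, dist_zero_right, Real.norm_eq_abs] at this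
    linarith
  have hψcont := hψl.continuous
  have hdcont := hd.continuous
  let r : ℕ → ℝ := fun n => ρ / (n + 1)
  have hr0 : ∀ n, 0 < r n := fun n => by positivity
  have hrρ : ∀ n, r n ≤ ρ := fun n => div_le_self hρ.le (by linarith [Nat.cast_nonneg (α := ℝ) n])
  have hrt : Tendsto r atTop (𝓝[>] 0) := by
    refine tendsto_nhdsWithin_iff.2 ⟨?_, Eventually.of_forall hr0⟩
    have := (tendsto_one_div_add_atTop_nhds_zero_nat (𝕜 := ℝ)).const_mul ρ
    simpa [r, div_eq_mul_inv] using this
  have key : ∀ n, 0 ≤ ∫ s, ((r n)⁻¹ • (ψ (s + r n) - ψ s)) * ((r n)⁻¹ • (d (s + r n) - d s)) := by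
    intro n
    have h := discrete hψcont hψc hdcont hψ0 (r := r n) (hcon (r n) (hr0 n) (hrρ n))
    have e : (fun s => ((r n)⁻¹ • (ψ (s + r n) - ψ s)) * ((r n)⁻¹ • (d (s + r n) - d s)))
        = fun s => ((r n)⁻¹ * (r n)⁻¹) * ((ψ (s + r n) - ψ s) * (d (s + r n) - d s)) := by
      funext s; simp only [smul_eq_mul]; ring
    rw [e, integral_const_mul]
    exact mul_nonneg (mul_self_nonneg _) h
  have hlim : Tendsto (fun n => ∫ s, ((r n)⁻¹ • (ψ (s + r n) - ψ s)) *
      ((r n)⁻¹ • (d (s + r n) - d s))) atTop (𝓝 (∫ s, deriv ψ s * deriv d s)) := by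
    refine tendsto_integral_of_dominated_convergence
      (fun s => (closedBall (0 : ℝ) (R + ρ)).indicator (fun _ => (L : ℝ)) s) ?_ ?_ ?_ ?_
    · intro n
      refine Continuous.aestronglyMeasurable ?_
      have c1 : Continuous fun s => ψ (s + r n) := hψcont.comp (continuous_id.add continuous_const)
      have c2 : Continuous fun s => d (s + r n) := hdcont.comp (continuous_id.add continuous_const)
      exact ((c1.sub hψcont).const_smul (r n)⁻¹).mul ((c2.sub hdcont).const_smul (r n)⁻¹)
    · exact (integrable_indicator_iff measurableSet_closedBall).2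
        (integrableOn_const (isCompact_closedBall _ _).measure_lt_top.ne)
    · intro n
      refine Eventually.of_forall fun s => ?_
      have hrn := hr0 n
      have b1 : |(r n)⁻¹ • (ψ (s + r n) - ψ s)| ≤ L := by
        rw [smul_eq_mul, abs_mul, abs_of_pos (inv_pos.2 hrn)]
        have := hψl.dist_le_mul (s + r n) s
        rw [Real.dist_eq, Real.dist_eq, add_sub_cancel_left, abs_of_pos hrn] at this
        rw [inv_mul_le_iff₀ hrn]; linarith
      have b2 : |(r n)⁻¹ • (d (s + r n) - d s)| ≤ 1 := by
        rw [smul_eq_mul, abs_mul, abs_of_pos (inv_pos.2 hrn)]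
        have := hd.dist_le_mul (s + r n) s
        rw [Real.dist_eq, Real.dist_eq, add_sub_cancel_left, abs_of_pos hrn] at this
        rw [inv_mul_le_iff₀ hrn]; simp at this; linarith
      rw [Real.norm_eq_abs, abs_mul]
      by_cases hs : s ∈ closedBall (0 : ℝ) (R + ρ)
      · rw [indicator_of_mem hs]
        calc _ ≤ (L : ℝ) * 1 := mul_le_mul b1 b2 (abs_nonneg _) L.2
          _ = L := mul_one _
      · rw [indicator_of_notMem hs]
        rw [mem_closedBall, dist_zero_right, Real.norm_eq_abs, not_le] at hs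
        have z1 : ψ s = 0 := hR' s (by linarith)
        have z2 : ψ (s + r n) = 0 := hR' _ (by
          have := abs_add_le (s + r n) (-(r n))
          rw [add_neg_cancel_right, abs_neg, abs_of_pos hrn] at this
          linarith [hrρ n])
        rw [z1, z2]; simp
    · filter_upwards [hψl.ae_differentiableAt_real, hd.ae_differentiableAt_real] with s h1 h2
      exact ((h1.hasDerivAt.tendsto_slope_zero_right).comp hrt).mul
        ((h2.hasDerivAt.tendsto_slope_zero_right).comp hrt)
  exact ge_of_tendsto' hlim key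

theorem hardy1 {A : Set ℝ} (hA : IsClosed A) (hne : A.Nonempty) {g : ℝ → ℝ}
    (hg : ContDiff ℝ 1 g) (hc : HasCompactSupport g) (hs : Disjoint (tsupport g) A) :
    ∫ s, (g s ^ 2 / infDist s A ^ 2 - 4 * deriv g s ^ 2) ≤ 0 := by
  set d : ℝ → ℝ := fun s => infDist s A with hd
  have hdl : LipschitzWith 1 d := lipschitz_infDist_pt A
  have hdc : Continuous d := hdl.continuous
  set K := tsupport g with hK
  have hKc : IsCompact K := hc
  have hdpos : ∀ s ∈ K, 0 < d s := fun s hsK =>
    (hA.notMem_iff_infDist_pos hne).1 (disjoint_left.1 hs hsK)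
  obtain ⟨ρ, hρ, hρK⟩ : ∃ ρ : ℝ, 0 < ρ ∧ ∀ s ∈ K, ρ ≤ d s := by
    rcases K.eq_empty_or_nonempty with h | h
    · exact ⟨1, one_pos, fun s hsK => by rw [h] at hsK; exact absurd hsK (notMem_empty s)⟩
    · obtain ⟨s0, hs0, hmin⟩ := hKc.exists_isMinOn h hdc.continuousOn
      exact ⟨d s0, hdpos s0 hs0, fun s hsK => hmin hsK⟩
  have hg0 : ∀ s ∉ K, g s = 0 := fun s hsK => image_eq_zero_of_notMem_tsupport hsK
  -- a Lipschitz version of `g² / d`
  set D : ℝ → ℝ := fun s => max (d s) (ρ / 2) with hD
  have hDl : LipschitzWith 1 D := hdl.max_const (ρ / 2)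
  have hDlow : ∀ s, ρ / 2 ≤ D s := fun s => le_max_right _ _
  have hDpos : ∀ s, 0 < D s := fun s => lt_of_lt_of_le (by linarith) (hDlow s)
  have hDK : ∀ s ∈ K, D s = d s := fun s hsK => max_eq_left (by linarith [hρK s hsK])
  have hg2c : HasCompactSupport (fun s => g s ^ 2) := by
    refine hc.comp_left (g := fun x : ℝ => x ^ 2) (by simp)
  have hg2 : ContDiff ℝ 1 (fun s => g s ^ 2) := hg.pow 2
  obtain ⟨C, hC⟩ := hg2.lipschitzWith_of_hasCompactSupport hg2c (by simp)
  obtain ⟨M, hM⟩ := hg2.continuous.bounded_above_of_compact_support hg2c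
  have hM0 : 0 ≤ M := (norm_nonneg _).trans (hM 0)
  set ψ : ℝ → ℝ := fun s => g s ^ 2 / D s with hψd
  have hψc : HasCompactSupport ψ := by
    refine hg2c.mono' ?_
    intro s hs'
    refine subset_tsupport _ ?_
    intro h
    exact hs' (by simp only [hψd]; rw [show g s ^ 2 = 0 from h, zero_div])
  set L : ℝ := C / (ρ / 2) + M / (ρ / 2) ^ 2 with hL
  have hL0 : 0 ≤ L := by positivity
  have hψl : LipschitzWith ⟨L, hL0⟩ ψ := by
    refine LipschitzWith.of_dist_le_mul fun s t => ?_
    rw [Real.dist_eq]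
    have e : ψ s - ψ t = (g s ^ 2 - g t ^ 2) / D s + g t ^ 2 * (D t - D s) / (D s * D t) := by
      simp only [hψd]
      have := (hDpos s).ne'; have := (hDpos t).ne'
      field_simp
      ring
    have h1 : |(g s ^ 2 - g t ^ 2) / D s| ≤ C / (ρ / 2) * |s - t| := by
      rw [abs_div, abs_of_pos (hDpos s)]
      have := hC.dist_le_mul s t
      rw [Real.dist_eq, Real.dist_eq] at this
      calc |g s ^ 2 - g t ^ 2| / D s ≤ (C * |s - t|) / (ρ / 2) :=
            div_le_div₀ (by positivity) this (by positivity) (hDlow s)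
        _ = _ := by ring
    have h2 : |g t ^ 2 * (D t - D s) / (D s * D t)| ≤ M / (ρ / 2) ^ 2 * |s - t| := by
      rw [abs_div, abs_mul, abs_of_pos (mul_pos (hDpos s) (hDpos t))]
      have h3 := hM t
      rw [Real.norm_eq_abs] at h3
      have h4 := hDl.dist_le_mul t s
      rw [Real.dist_eq, dist_comm, Real.dist_eq] at h4
      simp only [NNReal.coe_one, one_mul] at h4
      calc |g t ^ 2| * |D t - D s| / (D s * D t) ≤ (M * |s - t|) / ((ρ / 2) * (ρ / 2)) := by
            refine div_le_div₀ (by positivity) (mul_le_mul h3 h4 (abs_nonneg _) hM0)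
              (by positivity) (mul_le_mul (hDlow s) (hDlow t) (by positivity) (hDpos s).le)
        _ = _ := by ring
    rw [e]
    refine (abs_add_le _ _).trans ?_
    have : dist s t = |s - t| := Real.dist_eq s t
    rw [this]
    change _ ≤ L * |s - t|
    rw [hL, add_mul]
    exact add_le_add h1 h2
  have hψ0 : ∀ s, 0 ≤ ψ s := fun s => div_nonneg (sq_nonneg _) (hDpos s).le
  have hψK : ∀ s, ψ s ≠ 0 → s ∈ K := fun s hs' => by
    by_contra h
    exact hs' (by simp only [hψd]; rw [hg0 s h]; simp)
  have h0 := limit_form hψl hψc hdl hψ0 hρ (fun r hr hrρ s hs' =>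
    dist_concave hA hne hr.le (hrρ.trans (hρK s (hψK s hs'))))
  -- pointwise comparison
  have hfc : HasCompactSupport (fun s => 2 * deriv g s ^ 2 - g s ^ 2 / (2 * D s ^ 2)) := by
    refine HasCompactSupport.of_support_subset_isCompact hKc ?_
    intro s hs'
    by_contra h
    have h1 : g s = 0 := hg0 s h
    have h2 : deriv g s = 0 := by
      have := (tsupport_deriv_subset (𝕜 := ℝ) (f := g))
      exact image_eq_zero_of_notMem_tsupport fun h' => h (this h')
    exact hs' (by simp only [h1, h2]; simp)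
  have hgd : Continuous (deriv g) := hg.continuous_deriv le_rfl
  have hfi : Integrable (fun s => 2 * deriv g s ^ 2 - g s ^ 2 / (2 * D s ^ 2)) := by
    refine Continuous.integrable_of_hasCompactSupport ?_ hfc
    refine (continuous_const.mul (hgd.pow 2)).sub ?_
    refine (hg.continuous.pow 2).div (continuous_const.mul (hDl.continuous.pow 2)) fun s => ?_
    have := hDpos s
    positivity
  have hpt : ∀ᵐ s, deriv ψ s * deriv d s ≤ 2 * deriv g s ^ 2 - g s ^ 2 / (2 * D s ^ 2) := by
    filter_upwards [hdl.ae_differentiableAt_real] with s h2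
    by_cases hsK : s ∈ K
    · have hds : ρ ≤ d s := hρK s hsK
      have hsA : s ∉ A := disjoint_left.1 hs hsK
      have hev : D =ᶠ[𝓝 s] d := by
        have : ∀ᶠ t in 𝓝 s, ρ / 2 < d t := hdc.continuousAt.eventually_const_lt (by linarith)
        filter_upwards [this] with t ht
        exact max_eq_left ht.le
      have hDd : HasDerivAt D (deriv d s) s := h2.hasDerivAt.congr_of_eventuallyEq hev
      have hgs : HasDerivAt g (deriv g s) s := (hg.differentiable (by simp) s).hasDerivAt
      have h3 : HasDerivAt ψ (((2 : ℕ) * g s ^ (2 - 1) * deriv g s * D s - g s ^ 2 * deriv d s)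
          / D s ^ 2) s := (hgs.pow 2).div hDd (hDpos s).ne'
      have hsq : deriv d s ^ 2 = 1 := dist_slope hA hne hsA h2.hasDerivAt
      rw [h3.deriv]
      have hp := hDpos s
      set a := g s; set b := deriv g s; set q := deriv d s; set w := D s
      have e1 : (((2 : ℕ) * a ^ (2 - 1) * b * w - a ^ 2 * q) / w ^ 2) * q
          = 2 * b * (a / w) * q - (a / w) ^ 2 * q ^ 2 := by
        push_cast; field_simp
      have e2 : 2 * b ^ 2 - a ^ 2 / (2 * w ^ 2) = 2 * b ^ 2 - (a / w) ^ 2 / 2 := by
        field_simp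
      rw [e1, e2, hsq]
      have : q ^ 2 = 1 := hsq
      nlinarith [sq_nonneg (2 * b - (a / w) * q), sq_nonneg (a / w)]
    · have hz : ψ =ᶠ[𝓝 s] fun _ => 0 := by
        have : ∀ᶠ t in 𝓝 s, t ∉ K := (isClosed_tsupport g).isOpen_compl.mem_nhds hsK
        filter_upwards [this] with t ht
        simp only [hψd]; rw [hg0 t ht]; simp
      have h1 : deriv ψ s = 0 := by rw [hz.deriv_eq]; simp
      rw [h1, hg0 s hsK]
      have := sq_nonneg (deriv g s)
      simp only [zero_mul]
      have : (0 : ℝ) ^ 2 / (2 * D s ^ 2) = 0 := by simp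
      rw [this]; nlinarith
  have hint : Integrable fun s => deriv ψ s * deriv d s := by
    refine Integrable.mono' (g := K.indicator fun _ => L)
      ((integrable_indicator_iff hKc.measurableSet).2
        (integrableOn_const hKc.measure_lt_top.ne))
      ((measurable_deriv ψ).mul (measurable_deriv d)).aestronglyMeasurable
      (Eventually.of_forall fun s => ?_)
    have b1 : ‖deriv ψ s‖ ≤ L := norm_deriv_le_of_lipschitz hψl
    have b2 : ‖deriv d s‖ ≤ 1 := norm_deriv_le_of_lipschitz hdl
    rw [norm_mul]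
    by_cases hsK : s ∈ K
    · rw [indicator_of_mem hsK]
      calc _ ≤ L * 1 := mul_le_mul b1 b2 (norm_nonneg _) hL0
        _ = L := mul_one _
    · have hz : ψ =ᶠ[𝓝 s] fun _ => 0 := by
        have : ∀ᶠ t in 𝓝 s, t ∉ K := (isClosed_tsupport g).isOpen_compl.mem_nhds hsK
        filter_upwards [this] with t ht
        simp only [hψd]; rw [hg0 t ht]; simp
      have h1 : deriv ψ s = 0 := by rw [hz.deriv_eq]; simp
      rw [h1, indicator_of_notMem hsK]; simp
  have h4 : ∫ s, deriv ψ s * deriv d s ≤ ∫ s, (2 * deriv g s ^ 2 - g s ^ 2 / (2 * D s ^ 2)) :=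
    integral_mono_ae hint hfi hpt
  have h5 : ∀ s, g s ^ 2 / d s ^ 2 - 4 * deriv g s ^ 2
      = -2 * (2 * deriv g s ^ 2 - g s ^ 2 / (2 * D s ^ 2)) := by
    intro s
    by_cases hsK : s ∈ K
    · rw [hDK s hsK]
      have := hdpos s hsK
      field_simp
      ring
    · rw [hg0 s hsK]; simp; ring
  calc ∫ s, (g s ^ 2 / d s ^ 2 - 4 * deriv g s ^ 2)
      = ∫ s, -2 * (2 * deriv g s ^ 2 - g s ^ 2 / (2 * D s ^ 2)) := by
        congr 1; funext s; exact h5 s
    _ = -2 * ∫ s, (2 * deriv g s ^ 2 - g s ^ 2 / (2 * D s ^ 2)) := integral_const_mul _ _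
    _ ≤ 0 := by nlinarith [h0.trans h4]

end Pool.Agent.X187.HB
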