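import Mathlib
import Pool.Agent.H772R2.NS.Defs

/-!
Hardy's inequality with the distance to a point of three dimensional space.
-/

set_option autoImplicit false

open MeasureTheory Set Filter Topology Metric
open scoped InnerProductSpace ENNReal ContDiff

namespace Pool.Agent.X187.HB

open H772R2.NS

/-- the regularized weight -/
noncomputable def rw' (y : E3) (ε : ℝ) (x : E3) : ℝ := (‖x - y‖ ^ 2 + ε)⁻¹

theorem sum_single (v : E3) : ∑ j, v j • (EuclideanSpace.single j (1 : ℝ) : E3) = v := by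
  ext i
  simp [Finset.sum_apply, Pi.single_apply]

theorem sum_coord_sq (v : E3) : ∑ j, v j ^ 2 = ‖v‖ ^ 2 := by
  rw [EuclideanSpace.norm_sq_eq]
  simp

theorem hardy_reg (y : E3) {ε : ℝ} (hε : 0 < ε) {f : E3 → ℝ} (hf : ContDiff ℝ 1 f)
    (hc : HasCompactSupport f) :
    ∫ x, rw' y ε x * f x ^ 2 ≤ 4 * ∫ x, ‖fderiv ℝ f x‖ ^ 2 := by
  have hD : ∀ x : E3, 0 < ‖x - y‖ ^ 2 + ε := fun x => by positivity
  have hDd : ∀ x : E3, HasFDerivAt (fun x : E3 => ‖x - y‖ ^ 2 + ε)
      (2 • (innerSL ℝ (x - y))) x := by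
    intro x
    have h1 := ((hasFDerivAt_id x).sub_const y).norm_sq
    have h2 := h1.add_const ε
    refine h2.congr_fderiv ?_
    ext v
    simp
  have hwd : ∀ x : E3, HasFDerivAt (rw' y ε)
      (-(2 * (‖x - y‖ ^ 2 + ε)⁻¹ ^ 2) • (innerSL ℝ (x - y))) x := by
    intro x
    have h1 := (hasDerivAt_inv (hD x).ne').comp_hasFDerivAt x (hDd x)
    refine h1.congr_fderiv ?_
    ext v
    simp
    ring
  have hwc : Continuous (rw' y ε) := continuous_iff_continuousAt.2 fun x => (hwd x).continuousAt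
  have hwpos : ∀ x, 0 < rw' y ε x := fun x => inv_pos.2 (hD x)
  -- the components of the field
  set a : Fin 3 → E3 → ℝ := fun j x => (x j - y j) * rw' y ε x with ha
  have hcoord : ∀ (j : Fin 3) (x : E3), HasFDerivAt (fun x : E3 => x j - y j)
      (EuclideanSpace.proj j : E3 →L[ℝ] ℝ) x := fun j x =>
    ((EuclideanSpace.proj j : E3 →L[ℝ] ℝ).hasFDerivAt).sub_const (y j)
  have had : ∀ (j : Fin 3) (x : E3), HasFDerivAt (a j)
      ((x j - y j) • (-(2 * (‖x - y‖ ^ 2 + ε)⁻¹ ^ 2) • (innerSL ℝ (x - y)))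
        + rw' y ε x • (EuclideanSpace.proj j : E3 →L[ℝ] ℝ)) x := fun j x =>
    (hcoord j x).mul (hwd x)
  have hav : ∀ (j : Fin 3) (x : E3), fderiv ℝ (a j) x (EuclideanSpace.single j 1)
      = rw' y ε x - 2 * (x j - y j) ^ 2 * rw' y ε x ^ 2 := by
    intro j x
    rw [(had j x).fderiv]
    simp [rw', EuclideanSpace.inner_single_right]
    ring
  have hac : ∀ j, Continuous (a j) := fun j =>
    continuous_iff_continuousAt.2 fun x => (had j x).continuousAt
  have hf2 : ContDiff ℝ 1 fun x => f x ^ 2 := hf.pow 2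
  have hf2c : HasCompactSupport fun x => f x ^ 2 :=
    hc.comp_left (g := fun y : ℝ => y ^ 2) (by simp)
  have hf2d : ∀ x v, fderiv ℝ (fun x => f x ^ 2) x v = 2 * f x * fderiv ℝ f x v := by
    intro x v
    have := ((hf.differentiable (by simp) x).hasFDerivAt.pow 2).fderiv
    rw [this]
    simp
  have hdf : ∀ v, Continuous fun x => fderiv ℝ f x v := fun v =>
    (hf.continuous_fderiv (by simp)).clm_apply continuous_const
  have hibp : ∀ j, ∫ x, a j x * (2 * f x * fderiv ℝ f x (EuclideanSpace.single j 1))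
      = -∫ x, (rw' y ε x - 2 * (x j - y j) ^ 2 * rw' y ε x ^ 2) * f x ^ 2 := by
    intro j
    have cd : Continuous fun x : E3 => (rw' y ε x - 2 * (x j - y j) ^ 2 * rw' y ε x ^ 2) := by
      have : Continuous fun x : E3 => x j - y j :=
        continuous_iff_continuousAt.2 fun x => (hcoord j x).continuousAt
      fun_prop
    have h1 := integral_mul_fderiv_eq_neg_fderiv_mul_of_integrable (μ := (volume : Measure E3))
      (f := a j) (g := fun x => f x ^ 2) (v := EuclideanSpace.single j 1)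
      (by
        simp_rw [hav]
        exact (cd.mul hf2.continuous).integrable_of_hasCompactSupport hf2c.mul_left)
      (by
        simp_rw [hf2d]
        refine ((hac j).mul ((continuous_const.mul hf.continuous).mul (hdf _))).integrable_of_hasCompactSupport ?_
        exact HasCompactSupport.mul_left (HasCompactSupport.mul_right (HasCompactSupport.mul_left hc)))
      (((hac j).mul hf2.continuous).integrable_of_hasCompactSupport hf2c.mul_left)
      (fun x _ => (had j x).differentiableAt)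
      (fun x _ => (hf2.differentiable (by simp)) x)
    simp_rw [hf2d, hav] at h1
    exact h1
  have i1 : ∀ j : Fin 3, Integrable fun x : E3 =>
      (rw' y ε x - 2 * (x j - y j) ^ 2 * rw' y ε x ^ 2) * f x ^ 2 := by
    intro j
    have cd : Continuous fun x : E3 => (rw' y ε x - 2 * (x j - y j) ^ 2 * rw' y ε x ^ 2) := by
      have : Continuous fun x : E3 => x j - y j :=
        continuous_iff_continuousAt.2 fun x => (hcoord j x).continuousAt
      fun_prop
    exact (cd.mul hf2.continuous).integrable_of_hasCompactSupport hf2c.mul_left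
  have i2 : ∀ j : Fin 3, Integrable fun x : E3 =>
      a j x * (2 * f x * fderiv ℝ f x (EuclideanSpace.single j 1)) := by
    intro j
    refine ((hac j).mul ((continuous_const.mul hf.continuous).mul (hdf _))).integrable_of_hasCompactSupport ?_
    exact HasCompactSupport.mul_left (HasCompactSupport.mul_right (HasCompactSupport.mul_left hc))
  have i3 : Integrable fun x => rw' y ε x * f x ^ 2 :=
    (hwc.mul hf2.continuous).integrable_of_hasCompactSupport hf2c.mul_left
  have hn : Continuous fun x => ‖fderiv ℝ f x‖ ^ 2 := (hf.continuous_fderiv (by simp)).norm.pow 2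
  have i4 : Integrable fun x => ‖fderiv ℝ f x‖ ^ 2 := by
    refine hn.integrable_of_hasCompactSupport ?_
    exact (hc.fderiv (𝕜 := ℝ)).comp_left (g := fun L : E3 →L[ℝ] ℝ => ‖L‖ ^ 2) (by simp)
  -- summation
  have hsum : ∫ x, (∑ j, (rw' y ε x - 2 * (x j - y j) ^ 2 * rw' y ε x ^ 2)) * f x ^ 2
      = -∫ x, 2 * f x * rw' y ε x * fderiv ℝ f x (x - y) := by
    have e1 : ∀ x, (∑ j, (rw' y ε x - 2 * (x j - y j) ^ 2 * rw' y ε x ^ 2)) * f x ^ 2
        = ∑ j, (rw' y ε x - 2 * (x j - y j) ^ 2 * rw' y ε x ^ 2) * f x ^ 2 := fun x =>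
      Finset.sum_mul _ _ _
    have e2 : ∀ x, 2 * f x * rw' y ε x * fderiv ℝ f x (x - y)
        = ∑ j, a j x * (2 * f x * fderiv ℝ f x (EuclideanSpace.single j 1)) := by
      intro x
      conv_lhs => rw [← sum_single (x - y)]
      rw [map_sum, Finset.mul_sum]
      refine Finset.sum_congr rfl fun j _ => ?_
      rw [map_smul, smul_eq_mul]
      simp only [ha, PiLp.sub_apply]
      ring
    simp_rw [e1, e2]
    rw [integral_finsetSum _ fun j _ => i1 j, integral_finsetSum _ fun j _ => i2 j]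
    simp_rw [hibp]
    rw [Finset.sum_neg_distrib, neg_neg]
  have hpt1 : ∀ x, rw' y ε x * f x ^ 2
      ≤ (∑ j, (rw' y ε x - 2 * (x j - y j) ^ 2 * rw' y ε x ^ 2)) * f x ^ 2 := by
    intro x
    refine mul_le_mul_of_nonneg_right ?_ (sq_nonneg _)
    have e3 : ∑ j, (rw' y ε x - 2 * (x j - y j) ^ 2 * rw' y ε x ^ 2)
        = 3 * rw' y ε x - 2 * ‖x - y‖ ^ 2 * rw' y ε x ^ 2 := by
      rw [Finset.sum_sub_distrib, ← Finset.sum_mul, ← Finset.mul_sum]
      have := sum_coord_sq (x - y)
      simp only [PiLp.sub_apply] at this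
      rw [this]
      simp
    rw [e3]
    have h5 : ‖x - y‖ ^ 2 * rw' y ε x ≤ 1 := by
      have := hD x
      unfold rw'
      rw [← div_eq_mul_inv, div_le_one this]
      linarith
    have := hwpos x
    nlinarith
  have hpt2 : ∀ x, -(2 * f x * rw' y ε x * fderiv ℝ f x (x - y))
      ≤ 1 / 2 * (rw' y ε x * f x ^ 2) + 2 * ‖fderiv ℝ f x‖ ^ 2 := by
    intro x
    have h5 : ‖x - y‖ ^ 2 * rw' y ε x ≤ 1 := by
      have := hD x
      unfold rw'
      rw [← div_eq_mul_inv, div_le_one this]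
      linarith
    have h6 : (fderiv ℝ f x (x - y)) ^ 2 ≤ ‖fderiv ℝ f x‖ ^ 2 * ‖x - y‖ ^ 2 := by
      have := (fderiv ℝ f x).le_opNorm (x - y)
      rw [← mul_pow, ← sq_abs (fderiv ℝ f x (x - y)), ← Real.norm_eq_abs]
      exact pow_le_pow_left₀ (norm_nonneg _) this 2
    have hw := hwpos x
    set w := rw' y ε x
    set L := fderiv ℝ f x (x - y)
    set N := ‖fderiv ℝ f x‖
    -- `-(2 f w L) ≤ w f²/2 + 2 w L²`
    have h7 : -(2 * f x * w * L) ≤ 1 / 2 * (w * f x ^ 2) + 2 * (w * L ^ 2) := by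
      have : 0 ≤ w * (f x + 2 * L) ^ 2 := by positivity
      nlinarith
    have h8 : w * L ^ 2 ≤ N ^ 2 := by
      calc w * L ^ 2 ≤ w * (N ^ 2 * ‖x - y‖ ^ 2) := by gcongr
        _ = N ^ 2 * (‖x - y‖ ^ 2 * w) := by ring
        _ ≤ N ^ 2 * 1 := by gcongr
        _ = N ^ 2 := mul_one _
    linarith
  have i5 : Integrable fun x => (∑ j, (rw' y ε x - 2 * (x j - y j) ^ 2 * rw' y ε x ^ 2)) * f x ^ 2 := by
    simp_rw [Finset.sum_mul]
    exact integrable_finsetSum _ fun j _ => i1 j
  have i6 : Integrable fun x => 2 * f x * rw' y ε x * fderiv ℝ f x (x - y) := by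
    have e2 : ∀ x, 2 * f x * rw' y ε x * fderiv ℝ f x (x - y)
        = ∑ j, a j x * (2 * f x * fderiv ℝ f x (EuclideanSpace.single j 1)) := by
      intro x
      conv_lhs => rw [← sum_single (x - y)]
      rw [map_sum, Finset.mul_sum]
      refine Finset.sum_congr rfl fun j _ => ?_
      rw [map_smul, smul_eq_mul]
      simp only [ha, PiLp.sub_apply]
      ring
    simp_rw [e2]
    exact integrable_finsetSum _ fun j _ => i2 j
  have h9 : ∫ x, rw' y ε x * f x ^ 2 ≤ ∫ x, (1 / 2 * (rw' y ε x * f x ^ 2) + 2 * ‖fderiv ℝ f x‖ ^ 2) := by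
    calc ∫ x, rw' y ε x * f x ^ 2
        ≤ ∫ x, (∑ j, (rw' y ε x - 2 * (x j - y j) ^ 2 * rw' y ε x ^ 2)) * f x ^ 2 :=
          integral_mono i3 i5 hpt1
      _ = ∫ x, -(2 * f x * rw' y ε x * fderiv ℝ f x (x - y)) := by rw [hsum, integral_neg]
      _ ≤ _ := integral_mono i6.neg ((i3.const_mul _).add (i4.const_mul _)) hpt2
  rw [integral_add (i3.const_mul _) (i4.const_mul _), integral_const_mul, integral_const_mul] at h9
  linarith

theorem hardy_point (y : E3) {f : E3 → ℝ} (hf : ContDiff ℝ 1 f) (hc : HasCompactSupport f) :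
    ∫⁻ x, (edist x y)⁻¹ ^ 2 * ENNReal.ofReal (f x ^ 2)
      ≤ 4 * ∫⁻ x, ENNReal.ofReal (‖fderiv ℝ f x‖ ^ 2) := by
  have hn : Continuous fun x => ‖fderiv ℝ f x‖ ^ 2 := (hf.continuous_fderiv (by simp)).norm.pow 2
  have i4 : Integrable fun x => ‖fderiv ℝ f x‖ ^ 2 := by
    refine hn.integrable_of_hasCompactSupport ?_
    exact (hc.fderiv (𝕜 := ℝ)).comp_left (g := fun L : E3 →L[ℝ] ℝ => ‖L‖ ^ 2) (by simp)
  set ε : ℕ → ℝ := fun n => 1 / ((n : ℝ) + 1) with hε
  have hε0 : ∀ n, 0 < ε n := fun n => by positivity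
  have hεt : Tendsto ε atTop (𝓝 0) := tendsto_one_div_add_atTop_nhds_zero_nat
  have hwc : ∀ n, Continuous (rw' y (ε n)) := by
    intro n
    unfold rw'
    refine Continuous.inv₀ (by fun_prop) fun x => ?_
    have := hε0 n
    positivity
  have hbd : ∀ n, ∫⁻ x, ENNReal.ofReal (rw' y (ε n) x * f x ^ 2)
      ≤ 4 * ∫⁻ x, ENNReal.ofReal (‖fderiv ℝ f x‖ ^ 2) := by
    intro n
    have h := hardy_reg y (hε0 n) hf hc
    have hf2c : HasCompactSupport fun x => f x ^ 2 :=
      hc.comp_left (g := fun y : ℝ => y ^ 2) (by simp)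
    have i3 : Integrable fun x => rw' y (ε n) x * f x ^ 2 :=
      ((hwc n).mul (hf.continuous.pow 2)).integrable_of_hasCompactSupport hf2c.mul_left
    rw [← ofReal_integral_eq_lintegral_ofReal i3 (Eventually.of_forall fun x => by
        have : 0 ≤ rw' y (ε n) x := inv_nonneg.2 (by have := hε0 n; positivity)
        positivity),
      ← ofReal_integral_eq_lintegral_ofReal i4 (Eventually.of_forall fun x => by positivity)]
    rw [show (4 : ℝ≥0∞) = ENNReal.ofReal 4 by simp, ← ENNReal.ofReal_mul (by norm_num)]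
    exact ENNReal.ofReal_le_ofReal h
  have hlim : ∀ᵐ x : E3, (edist x y)⁻¹ ^ 2 * ENNReal.ofReal (f x ^ 2)
      = liminf (fun n => ENNReal.ofReal (rw' y (ε n) x * f x ^ 2)) atTop := by
    have : ∀ᵐ x : E3, x ≠ y := by simp [ae_iff, measure_singleton]
    filter_upwards [this] with x hx
    have hp : 0 < ‖x - y‖ := norm_pos_iff.2 (sub_ne_zero.2 hx)
    have h1 : Tendsto (fun n => ENNReal.ofReal (rw' y (ε n) x * f x ^ 2)) atTop
        (𝓝 (ENNReal.ofReal ((‖x - y‖ ^ 2 + 0)⁻¹ * f x ^ 2))) := by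
      refine ENNReal.tendsto_ofReal ?_
      unfold rw'
      refine Tendsto.mul_const _ ?_
      exact (tendsto_const_nhds.add hεt).inv₀ (by positivity)
    rw [h1.liminf_eq, add_zero, ENNReal.ofReal_mul (by positivity)]
    congr 1
    rw [edist_dist, dist_eq_norm, ← ENNReal.ofReal_inv_of_pos hp,
      ← ENNReal.ofReal_pow (by positivity), inv_pow]
  rw [lintegral_congr_ae hlim]
  refine (lintegral_liminf_le fun n => ?_).trans ?_
  · exact (((hwc n).mul (hf.continuous.pow 2)).measurable).ennreal_ofReal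
  · refine liminf_le_of_le (by isBoundedDefault) fun b hb => ?_
    obtain ⟨n, hn'⟩ := hb.exists
    exact hn'.trans (hbd n)

end Pool.Agent.X187.HB
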