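import Pool.Agent.X187.HB.One
import Pool.Agent.TH340.FF.Slice

/-!
Hardy's inequality with the distance to the complement of a bounded open set along parallel lines.
-/

set_option autoImplicit false
set_option linter.unusedSectionVars false

open MeasureTheory Set Filter Topology Metric
open scoped InnerProductSpace ENNReal ContDiff

namespace Pool.Agent.X187.HB

variable {E : Type*} [NormedAddCommGroup E] [InnerProductSpace ℝ E] [FiniteDimensional ℝ E]
  [MeasurableSpace E] [BorelSpace E] {Ω : Set E}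

/-- The distance along lines, in a general space -/
noncomputable def gDist (Ω : Set E) (e x : E) : ℝ≥0∞ :=
  Metric.infEDist (0 : ℝ) {s : ℝ | x + s • e ∉ Ω}

/-- the set `{(e, x) | d_e(x) ≤ r}` is closed -/
theorem lineDist_le_iff (hΩ : IsOpen Ω) (e x : E) (r : NNReal) :
    gDist Ω e x ≤ r ↔ ∃ s ∈ Icc (-(r : ℝ)) r, x + s • e ∉ Ω := by
  have hcl : IsClosed {s : ℝ | x + s • e ∉ Ω} := by
    have : Continuous fun s : ℝ => x + s • e :=
      continuous_const.add (continuous_id.smul continuous_const)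
    exact (hΩ.preimage this).isClosed_compl
  constructor
  · intro h
    rcases Set.eq_empty_or_nonempty {s : ℝ | x + s • e ∉ Ω} with h0 | h0
    · unfold gDist at h
      rw [h0, infEDist_empty] at h
      exact absurd h (by simp)
    · obtain ⟨s, hs, hse⟩ := hcl.exists_infDist_eq_dist h0 (0 : ℝ)
      refine ⟨s, ?_, hs⟩
      have h1 : infDist (0 : ℝ) {s : ℝ | x + s • e ∉ Ω} ≤ r := by
        have := ENNReal.toReal_mono (by simp) h
        simpa [gDist, infDist] using this
      rw [hse, dist_zero_left, Real.norm_eq_abs, abs_le] at h1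
      exact h1
  · rintro ⟨s, hs, hx⟩
    refine (infEDist_le_edist_of_mem (s := {s : ℝ | x + s • e ∉ Ω}) hx).trans ?_
    rw [edist_dist, dist_zero_left, Real.norm_eq_abs]
    have : |s| ≤ r := abs_le.2 hs
    calc ENNReal.ofReal |s| ≤ ENNReal.ofReal r := ENNReal.ofReal_le_ofReal this
      _ = r := ENNReal.ofReal_coe_nnreal

theorem measurable_lineDist (hΩ : IsOpen Ω) :
    Measurable fun z : E × E => gDist Ω z.1 z.2 := by
  haveI : ProperSpace E := FiniteDimensional.proper ℝ E
  have hcl : ∀ r : NNReal, IsClosed {z : E × E | gDist Ω z.1 z.2 ≤ r} := by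
    intro r
    have e : {z : E × E | gDist Ω z.1 z.2 ≤ r}
        = Prod.snd '' {q : (Icc (-(r : ℝ)) r) × (E × E) | q.2.2 + (q.1 : ℝ) • q.2.1 ∉ Ω} := by
      ext z
      rw [mem_ofPred_eq, lineDist_le_iff hΩ]
      constructor
      · rintro ⟨s, hs, hx⟩
        exact ⟨(⟨s, hs⟩, z), hx, rfl⟩
      · rintro ⟨⟨⟨s, hs⟩, z'⟩, hx, rfl⟩
        exact ⟨s, hs, hx⟩
    rw [e]
    refine isClosedMap_snd_of_compactSpace _ ?_
    have : Continuous fun q : (Icc (-(r : ℝ)) r) × (E × E) => q.2.2 + (q.1 : ℝ) • q.2.1 := by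
      fun_prop
    exact (hΩ.preimage this).isClosed_compl
  refine measurable_of_Iic fun r => ?_
  induction r with
  | top => simp
  | coe r => exact (hcl r).measurableSet

theorem measurable_lineDist_right (hΩ : IsOpen Ω) (e : E) :
    Measurable fun x : E => gDist Ω e x := by
  have h := (measurable_lineDist (E := E) hΩ).comp (measurable_prodMk_left (x := e))
  exact h

/-- The real valued version -/
noncomputable def rDist (Ω : Set E) (e x : E) : ℝ := infDist (0 : ℝ) {s : ℝ | x + s • e ∉ Ω}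

theorem rDist_eq (e x : E) : rDist Ω e x = (gDist Ω e x).toReal := rfl

theorem line_nonempty (hb : Bornology.IsBounded Ω) {e : E} (he : e ≠ 0) (x : E) :
    {s : ℝ | x + s • e ∉ Ω}.Nonempty := by
  by_contra h
  rw [Set.not_nonempty_iff_eq_empty] at h
  obtain ⟨R, hR⟩ := hb.exists_norm_le
  have hp : 0 < ‖e‖ := norm_pos_iff.2 he
  set s : ℝ := (|R| + ‖x‖ + 1) / ‖e‖ with hs
  have h1 : x + s • e ∈ Ω := by
    by_contra h1
    have : s ∈ {s : ℝ | x + s • e ∉ Ω} := h1
    rw [h] at this
    exact this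
  have h2 := hR _ h1
  have h3 : ‖s • e‖ ≤ ‖x + s • e‖ + ‖x‖ := by
    have := norm_sub_le (x + s • e) x
    simpa using this
  have h4 : ‖s • e‖ = |R| + ‖x‖ + 1 := by
    rw [norm_smul, hs, Real.norm_of_nonneg (by positivity), div_mul_cancel₀ _ hp.ne']
  have := le_abs_self R
  linarith

theorem rDist_add (e x : E) (s : ℝ) :
    rDist Ω e (x + s • e) = infDist s {s : ℝ | x + s • e ∉ Ω} := by
  unfold rDist
  have h : {t : ℝ | x + t • e ∉ Ω} = (fun t => s + t) '' {t : ℝ | x + s • e + t • e ∉ Ω} := by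
    ext t
    constructor
    · intro ht
      refine ⟨t - s, ?_, by ring⟩
      show x + s • e + (t - s) • e ∉ Ω
      rw [add_assoc, ← add_smul, add_sub_cancel]
      exact ht
    · rintro ⟨t', ht', rfl⟩
      show x + (s + t') • e ∉ Ω
      rw [add_smul, ← add_assoc]
      exact ht'
  rw [h]
  have := infDist_image (Φ := fun t : ℝ => s + t) (t := {t : ℝ | x + s • e + t • e ∉ Ω}) (x := 0)
    (isometry_add_left s)
  rw [add_zero] at this
  exact this.symm

theorem lineDist_ne_top (hb : Bornology.IsBounded Ω) {e : E} (he : e ≠ 0) (x : E) :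
    gDist Ω e x ≠ ⊤ := infEDist_ne_top (line_nonempty hb he x)

/-- a lower bound on compact subsets -/
theorem rDist_lower (hΩ : IsOpen Ω) (hb : Bornology.IsBounded Ω) {e : E} (he : e ≠ 0)
    {K : Set E} (hK : IsCompact K) (hKΩ : K ⊆ Ω) : ∃ ρ > 0, ∀ x ∈ K, ρ ≤ rDist Ω e x := by
  obtain ⟨δ, hδ, hδK⟩ := hK.exists_thickening_subset_open hΩ hKΩ
  have hp : 0 < ‖e‖ := norm_pos_iff.2 he
  refine ⟨δ / ‖e‖, by positivity, fun x hx => ?_⟩
  unfold rDist
  rw [le_infDist (line_nonempty hb he x)]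
  intro s hs
  rw [dist_zero_left, Real.norm_eq_abs]
  by_contra hcon
  rw [not_le, lt_div_iff₀ hp] at hcon
  refine hs (hδK ?_)
  rw [mem_thickening_iff]
  refine ⟨x, hx, ?_⟩
  rw [dist_eq_norm, add_sub_cancel_left, norm_smul, Real.norm_eq_abs]
  exact hcon

/-- Hardy's inequality along lines, real valued -/
theorem hardy_dir_real (hΩ : IsOpen Ω) (hb : Bornology.IsBounded Ω) {e : E} (he : e ≠ 0)
    {f : E → ℝ} (hf : ContDiff ℝ 1 f) (hc : HasCompactSupport f) (hs : tsupport f ⊆ Ω) :
    Integrable (fun x => f x ^ 2 / rDist Ω e x ^ 2) ∧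
    ∫ x, (f x ^ 2 / rDist Ω e x ^ 2 - 4 * (fderiv ℝ f x e) ^ 2) ≤ 0 := by
  have hmR : Measurable fun x => rDist Ω e x := (measurable_lineDist_right hΩ e).ennreal_toReal
  obtain ⟨ρ, hρ, hρK⟩ := rDist_lower hΩ hb he hc hs
  have hdF : Continuous fun x => fderiv ℝ f x e :=
    (hf.continuous_fderiv (by norm_num)).clm_apply continuous_const
  have hdFc : HasCompactSupport fun x => fderiv ℝ f x e :=
    (hc.fderiv (𝕜 := ℝ)).comp_left (g := fun L : E →L[ℝ] ℝ => L e) (by simp)
  have hdFc2 : HasCompactSupport fun x => (fderiv ℝ f x e) ^ 2 :=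
    hdFc.comp_left (g := fun y : ℝ => y ^ 2) (by simp)
  have i2 : Integrable fun x => (fderiv ℝ f x e) ^ 2 :=
    Continuous.integrable_of_hasCompactSupport (hdF.pow 2) hdFc2
  have i0 : Integrable fun x => f x ^ 2 :=
    Continuous.integrable_of_hasCompactSupport (hf.continuous.pow 2)
      (hc.comp_left (g := fun y : ℝ => y ^ 2) (by simp))
  have i1 : Integrable (fun x => f x ^ 2 / rDist Ω e x ^ 2) := by
    refine Integrable.mono' (i0.const_mul (1 / ρ ^ 2))
      ((hf.continuous.measurable.pow_const 2).div (hmR.pow_const 2)).aestronglyMeasurable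
      (Eventually.of_forall fun x => ?_)
    rw [Real.norm_of_nonneg (by positivity)]
    by_cases hx : x ∈ tsupport f
    · have h1 := hρK x hx
      rw [div_eq_mul_one_div, mul_comm]
      gcongr
    · rw [image_eq_zero_of_notMem_tsupport hx]; simp
  refine ⟨i1, ?_⟩
  have hp : 0 < ‖e‖ := norm_pos_iff.2 he
  set n := ‖e‖ with hn
  have hi : Integrable fun x => f x ^ 2 / rDist Ω e x ^ 2 - 4 * (fderiv ℝ f x e) ^ 2 :=
    i1.sub (i2.const_mul 4)
  have hu : ⟪n⁻¹ • e, n⁻¹ • e⟫_ℝ = 1 := by
    rw [inner_smul_left, inner_smul_right, real_inner_self_eq_norm_sq, ← hn]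
    simp only [conj_trivial]
    field_simp
  refine Pool.Agent.TH340.FF.integral_le_of_lines hi hu fun x => ?_
  -- the line through `x`
  have hline : ∀ s : ℝ, HasDerivAt (fun s : ℝ => x + s • e) e s := fun s => by
    simpa using ((hasDerivAt_id s).smul_const e).const_add x
  have hlc : ContDiff ℝ 1 fun s : ℝ => x + s • e :=
    contDiff_const.add (contDiff_id.smul contDiff_const)
  have hcle : IsClosedEmbedding fun s : ℝ => x + s • e := by
    have h1 : IsClosedEmbedding fun s : ℝ => s • e := by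
      refine (LinearMap.toSpanSingleton ℝ E e).isClosedEmbedding_of_injective ?_
      rw [LinearMap.ker_eq_bot]
      exact smul_left_injective ℝ he
    exact (Homeomorph.addLeft x).isClosedEmbedding.comp h1
  set g : ℝ → ℝ := fun s => f (x + s • e) with hg
  have hgc : HasCompactSupport g := hc.comp_isClosedEmbedding hcle
  have hgd : ContDiff ℝ 1 g := hf.comp hlc
  have hgder : ∀ s, deriv g s = fderiv ℝ f (x + s • e) e := fun s =>
    (((hf.differentiable (by norm_num)) _).hasFDerivAt.comp_hasDerivAt s (hline s)).deriv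
  have hA : IsClosed {s : ℝ | x + s • e ∉ Ω} := (hΩ.preimage hlc.continuous).isClosed_compl
  have hdis : Disjoint (tsupport g) {s : ℝ | x + s • e ∉ Ω} := by
    rw [disjoint_left]
    intro s hs1 hs2
    refine hs2 (hs ?_)
    exact tsupport_comp_subset_preimage f hlc.continuous hs1
  have h1 := hardy1 hA (line_nonempty hb he x) hgd hgc hdis
  simp_rw [hgder, ← rDist_add] at h1
  have e1 : ∀ s : ℝ, x + s • n⁻¹ • e = x + (n⁻¹ * s) • e := fun s => by
    rw [smul_smul, mul_comm]
  simp_rw [e1]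
  have e2 := Measure.integral_comp_mul_left (fun s : ℝ => f (x + s • e) ^ 2 /
    rDist Ω e (x + s • e) ^ 2 - 4 * (fderiv ℝ f (x + s • e) e) ^ 2) n⁻¹
  rw [e2]
  exact mul_nonpos_of_nonneg_of_nonpos (abs_nonneg _) h1

/-- Hardy's inequality along lines -/
theorem hardy_dir (hΩ : IsOpen Ω) (hb : Bornology.IsBounded Ω) (e : E)
    {f : E → ℝ} (hf : ContDiff ℝ 1 f) (hc : HasCompactSupport f) (hs : tsupport f ⊆ Ω) :
    ∫⁻ x, (gDist Ω e x)⁻¹ ^ 2 * ENNReal.ofReal (f x ^ 2)
      ≤ 4 * ∫⁻ x, ENNReal.ofReal ((fderiv ℝ f x e) ^ 2) := by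
  by_cases he : e = 0
  · subst he
    have h1 : ∀ x, (gDist Ω 0 x)⁻¹ ^ 2 * ENNReal.ofReal (f x ^ 2) = 0 := by
      intro x
      by_cases hx : x ∈ tsupport f
      · have hxΩ := hs hx
        have : {s : ℝ | x + s • (0 : E) ∉ Ω} = ∅ := by
          ext s; simp [hxΩ]
        unfold gDist
        rw [this, infEDist_empty]
        simp
      · rw [image_eq_zero_of_notMem_tsupport hx]; simp
    simp_rw [h1]
    simp
  obtain ⟨i1, h1⟩ := hardy_dir_real hΩ hb he hf hc hs
  have hdF : Continuous fun x => fderiv ℝ f x e :=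
    (hf.continuous_fderiv (by norm_num)).clm_apply continuous_const
  have hdFc : HasCompactSupport fun x => fderiv ℝ f x e :=
    (hc.fderiv (𝕜 := ℝ)).comp_left (g := fun L : E →L[ℝ] ℝ => L e) (by simp)
  have hdFc2 : HasCompactSupport fun x => (fderiv ℝ f x e) ^ 2 :=
    hdFc.comp_left (g := fun y : ℝ => y ^ 2) (by simp)
  have i2 : Integrable fun x => (fderiv ℝ f x e) ^ 2 :=
    Continuous.integrable_of_hasCompactSupport (hdF.pow 2) hdFc2
  rw [integral_sub i1 (i2.const_mul 4), integral_const_mul] at h1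
  obtain ⟨ρ, hρ, hρK⟩ := rDist_lower hΩ hb he hc hs
  have e1 : ∀ x, (gDist Ω e x)⁻¹ ^ 2 * ENNReal.ofReal (f x ^ 2)
      = ENNReal.ofReal (f x ^ 2 / rDist Ω e x ^ 2) := by
    intro x
    by_cases hx : x ∈ tsupport f
    · have h2 := hρK x hx
      have h3 : 0 < rDist Ω e x := lt_of_lt_of_le hρ h2
      have h4 : gDist Ω e x = ENNReal.ofReal (rDist Ω e x) := by
        rw [rDist_eq, ENNReal.ofReal_toReal (lineDist_ne_top hb he x)]
      rw [h4, ← ENNReal.ofReal_inv_of_pos h3, ← ENNReal.ofReal_pow (by positivity),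
        ← ENNReal.ofReal_mul (by positivity)]
      congr 1
      field_simp
    · rw [image_eq_zero_of_notMem_tsupport hx]; simp
  simp_rw [e1]
  rw [← ofReal_integral_eq_lintegral_ofReal i1 (Eventually.of_forall fun x => by positivity),
    ← ofReal_integral_eq_lintegral_ofReal i2 (Eventually.of_forall fun x => by positivity)]
  rw [show (4 : ℝ≥0∞) = ENNReal.ofReal 4 by simp, ← ENNReal.ofReal_mul (by norm_num)]
  exact ENNReal.ofReal_le_ofReal (by linarith)

end Pool.Agent.X187.HB
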