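import Pool.Agent.X187.HB.Wall
import Pool.Agent.X187.HB.Pt
import Pool.Agent.X187.HB.PubDef

/-!
Weights in Hardy's inequality.
-/

set_option autoImplicit false
set_option linter.unusedSectionVars false

open MeasureTheory Set Filter Topology Metric
open scoped InnerProductSpace ENNReal ContDiff

namespace Pool.Agent.X187.HB

open H772R2.NS

variable {Ω : Set E3}

/-- the same definition in terms of `E3` -/
def HardyE (Ω : Set E3) (h : E3 → ℝ≥0∞) : Prop :=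
  Measurable h ∧ ∀ φ : E3 → ℝ, ContDiff ℝ ∞ φ → HasCompactSupport φ → tsupport φ ⊆ Ω →
    ∫⁻ x, h x * ENNReal.ofReal (φ x ^ 2) ≤ 4 * ∫⁻ x, ENNReal.ofReal (‖fderiv ℝ φ x‖ ^ 2)

/-- the functional as an inner product -/
theorem riesz (L : E3 →L[ℝ] ℝ) : ∃ w : E3, ‖w‖ = ‖L‖ ∧ ∀ v, L v = ⟪v, w⟫_ℝ := by
  refine ⟨(InnerProductSpace.toDual ℝ E3).symm L, LinearIsometryEquiv.norm_map _ _, fun v => ?_⟩
  rw [real_inner_comm, InnerProductSpace.toDual_symm_apply]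

theorem meas_sing (y : E3) : Measurable fun x : E3 => (edist x y)⁻¹ ^ 2 :=
  ((measurable_edist_left (x := y)).inv).pow_const 2

/-- superposition of weights -/
theorem superpose {M : Measure E3} [IsFiniteMeasure M] {k F : E3 → E3 → ℝ≥0∞} {ψ : E3 → ℝ≥0∞}
    (hk : Measurable fun z : E3 × E3 => k z.1 z.2) (hF : Measurable fun z : E3 × E3 => F z.1 z.2)
    (hψ : Measurable ψ) (h : ∀ y, ∫⁻ x, k x y * ψ x ≤ 4 * ∫⁻ x, F x y) :
    ∫⁻ x, (∫⁻ y, k x y ∂M) * ψ x ≤ ∫⁻ x, 4 * ∫⁻ y, F x y ∂M := by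
  calc ∫⁻ x, (∫⁻ y, k x y ∂M) * ψ x = ∫⁻ x, ∫⁻ y, k x y * ψ x ∂M := by
        refine lintegral_congr fun x => ?_
        exact (lintegral_mul_const _ (hk.comp (measurable_prodMk_left (x := x)))).symm
    _ = ∫⁻ y, ∫⁻ x, k x y * ψ x ∂volume ∂M := by
        refine lintegral_lintegral_swap ?_
        exact (hk.mul (hψ.comp measurable_fst)).aemeasurable
    _ ≤ ∫⁻ y, 4 * (∫⁻ x, F x y) ∂M := lintegral_mono h
    _ = 4 * ∫⁻ y, (∫⁻ x, F x y) ∂M := lintegral_const_mul _ (hF.lintegral_prod_left')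
    _ = 4 * ∫⁻ x, (∫⁻ y, F x y ∂M) := by
        congr 1
        refine (lintegral_lintegral_swap ?_).symm
        exact hF.aemeasurable
    _ = _ := (lintegral_const_mul _ (hF.lintegral_prod_right')).symm

theorem meas_pot : Measurable fun z : E3 × E3 => (edist z.1 z.2)⁻¹ ^ 2 :=
  (measurable_edist.inv).pow_const 2

theorem meas_wall (hΩ : IsOpen Ω) : Measurable fun z : E3 × E3 => (gDist Ω z.2 z.1)⁻¹ ^ 2 :=
  (((measurable_lineDist hΩ).comp measurable_swap).inv).pow_const 2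

theorem hardy_wallPot (hΩ : IsOpen Ω) (hb : Bornology.IsBounded Ω) (P Q : Measure E3)
    [IsFiniteMeasure P] [IsFiniteMeasure Q]
    (hPQ : ∀ w : E3, P univ * ENNReal.ofReal (‖w‖ ^ 2)
      + ∫⁻ e, ENNReal.ofReal (⟪e, w⟫_ℝ ^ 2) ∂Q ≤ ENNReal.ofReal (‖w‖ ^ 2)) :
    HardyE Ω fun x => (∫⁻ y, (edist x y)⁻¹ ^ 2 ∂P) + ∫⁻ e, (gDist Ω e x)⁻¹ ^ 2 ∂Q := by
  have n1 : Measurable fun x : E3 => ∫⁻ y, (edist x y)⁻¹ ^ 2 ∂P := meas_pot.lintegral_prod_right'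
  have n2 : Measurable fun x : E3 => ∫⁻ e, (gDist Ω e x)⁻¹ ^ 2 ∂Q :=
    (meas_wall hΩ).lintegral_prod_right'
  refine ⟨n1.add n2, fun φ hφ hc hs => ?_⟩
  have hφ1 : ContDiff ℝ 1 φ := hφ.of_le (by exact_mod_cast le_top)
  have mφ : Measurable fun x => ENNReal.ofReal (φ x ^ 2) :=
    (hφ1.continuous.pow 2).measurable.ennreal_ofReal
  have cf : Continuous (fderiv ℝ φ) := hφ1.continuous_fderiv (by simp)
  have mN : Measurable fun x => ENNReal.ofReal (‖fderiv ℝ φ x‖ ^ 2) :=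
    (cf.norm.pow 2).measurable.ennreal_ofReal
  have mD : Measurable fun z : E3 × E3 => ENNReal.ofReal ((fderiv ℝ φ z.1 z.2) ^ 2) := by
    have : Continuous fun z : E3 × E3 => fderiv ℝ φ z.1 z.2 :=
      (cf.comp continuous_fst).clm_apply continuous_snd
    exact (this.pow 2).measurable.ennreal_ofReal
  -- the two parts
  have p1 : ∫⁻ x, (∫⁻ y, (edist x y)⁻¹ ^ 2 ∂P) * ENNReal.ofReal (φ x ^ 2)
      ≤ ∫⁻ x, 4 * ∫⁻ _y, ENNReal.ofReal (‖fderiv ℝ φ x‖ ^ 2) ∂P :=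
    superpose (k := fun x y => (edist x y)⁻¹ ^ 2)
      (F := fun x _ => ENNReal.ofReal (‖fderiv ℝ φ x‖ ^ 2)) meas_pot (mN.comp measurable_fst) mφ
      fun y => hardy_point y hφ1 hc
  have p2 : ∫⁻ x, (∫⁻ e, (gDist Ω e x)⁻¹ ^ 2 ∂Q) * ENNReal.ofReal (φ x ^ 2)
      ≤ ∫⁻ x, 4 * ∫⁻ e, ENNReal.ofReal ((fderiv ℝ φ x e) ^ 2) ∂Q :=
    superpose (k := fun x e => (gDist Ω e x)⁻¹ ^ 2)
      (F := fun x e => ENNReal.ofReal ((fderiv ℝ φ x e) ^ 2)) (meas_wall hΩ) mD mφ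
      fun e => hardy_dir hΩ hb e hφ1 hc hs
  set A : E3 → ℝ≥0∞ := fun x => ∫⁻ y, (edist x y)⁻¹ ^ 2 ∂P with hA
  set B : E3 → ℝ≥0∞ := fun x => ∫⁻ e, (gDist Ω e x)⁻¹ ^ 2 ∂Q with hB
  have hAm : Measurable A := n1
  have hBm : Measurable B := n2
  have p1' : ∫⁻ x, A x * ENNReal.ofReal (φ x ^ 2)
      ≤ ∫⁻ x, 4 * ∫⁻ _y, ENNReal.ofReal (‖fderiv ℝ φ x‖ ^ 2) ∂P := p1
  have p2' : ∫⁻ x, B x * ENNReal.ofReal (φ x ^ 2)
      ≤ ∫⁻ x, 4 * ∫⁻ e, ENNReal.ofReal ((fderiv ℝ φ x e) ^ 2) ∂Q := p2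
  show ∫⁻ x, (A x + B x) * ENNReal.ofReal (φ x ^ 2) ≤ _
  clear_value A B
  calc ∫⁻ x, (A x + B x) * ENNReal.ofReal (φ x ^ 2)
      = ∫⁻ x, (A x * ENNReal.ofReal (φ x ^ 2) + B x * ENNReal.ofReal (φ x ^ 2)) := by
        simp_rw [add_mul]
    _ = (∫⁻ x, A x * ENNReal.ofReal (φ x ^ 2)) + ∫⁻ x, B x * ENNReal.ofReal (φ x ^ 2) :=
        lintegral_add_left (hAm.mul mφ) _
    _ ≤ (∫⁻ x, 4 * ∫⁻ _y, ENNReal.ofReal (‖fderiv ℝ φ x‖ ^ 2) ∂P)
        + ∫⁻ x, 4 * ∫⁻ e, ENNReal.ofReal ((fderiv ℝ φ x e) ^ 2) ∂Q := add_le_add p1' p2'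
    _ = ∫⁻ x, (4 * (∫⁻ _y, ENNReal.ofReal (‖fderiv ℝ φ x‖ ^ 2) ∂P)
        + 4 * ∫⁻ e, ENNReal.ofReal ((fderiv ℝ φ x e) ^ 2) ∂Q) := by
        refine (lintegral_add_right _ ?_).symm
        exact (mD.lintegral_prod_right').const_mul 4
    _ ≤ ∫⁻ x, 4 * ENNReal.ofReal (‖fderiv ℝ φ x‖ ^ 2) := by
        refine lintegral_mono fun x => ?_
        show 4 * (∫⁻ _y, ENNReal.ofReal (‖fderiv ℝ φ x‖ ^ 2) ∂P)
          + 4 * (∫⁻ e, ENNReal.ofReal ((fderiv ℝ φ x e) ^ 2) ∂Q)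
          ≤ 4 * ENNReal.ofReal (‖fderiv ℝ φ x‖ ^ 2)
        rw [← mul_add, lintegral_const, mul_comm _ (P univ)]
        obtain ⟨w, hw, hL⟩ := riesz (fderiv ℝ φ x)
        have h3 := hPQ w
        have e1 : ∫⁻ e, ENNReal.ofReal ((fderiv ℝ φ x e) ^ 2) ∂Q
            = ∫⁻ e, ENNReal.ofReal (⟪e, w⟫_ℝ ^ 2) ∂Q := lintegral_congr fun e => by rw [hL e]
        rw [e1, ← hw]
        gcongr
    _ = _ := lintegral_const_mul _ mN

theorem sum_single_sq (w : E3) : ∑ j, (⟪(EuclideanSpace.single j (1 : ℝ) : E3), w⟫_ℝ) ^ 2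
    = ‖w‖ ^ 2 := by
  rw [← sum_coord_sq w]
  refine Finset.sum_congr rfl fun j _ => ?_
  rw [EuclideanSpace.inner_single_left]
  simp

/-- in a convex set the distance is controlled by the distances along the three coordinate lines -/
theorem convex_le (hΩ : IsOpen Ω) (hcv : Convex ℝ Ω) {x : E3} (hx : x ∈ Ω) :
    (infEDist x Ωᶜ)⁻¹ ^ 2 ≤ ∑ j : Fin 3, (gDist Ω (EuclideanSpace.single j (1 : ℝ)) x)⁻¹ ^ 2 := by
  rcases Set.eq_empty_or_nonempty Ωᶜ with h0 | h0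
  · rw [h0, infEDist_empty]; simp
  obtain ⟨y, hy, hxy⟩ := hΩ.isClosed_compl.exists_infDist_eq_dist h0 x
  have hyΩ : y ∉ Ω := hy
  obtain ⟨f, hf⟩ := geometric_hahn_banach_open_point hcv hΩ hyΩ
  obtain ⟨w, hw, hL⟩ := riesz f
  set c : ℝ := f y - f x with hc
  have hc0 : 0 < c := by have := hf x hx; linarith
  set d : ℝ := ‖y - x‖ with hd
  have hne : y - x ≠ 0 := sub_ne_zero.2 fun h => hyΩ (h ▸ hx)
  have hd0 : 0 < d := norm_pos_iff.2 hne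
  have hcd : c ≤ ‖w‖ * d := by
    have h1 : f (y - x) = c := by rw [map_sub]
    have h2 := f.le_opNorm (y - x)
    rw [h1, Real.norm_eq_abs, abs_of_pos hc0, ← hw] at h2
    exact h2
  have h1 : infEDist x Ωᶜ = ENNReal.ofReal d := by
    rw [← ENNReal.ofReal_toReal (infEDist_ne_top h0 (x := x))]
    congr 1
    show infDist x Ωᶜ = d
    rw [hxy, hd, dist_comm, dist_eq_norm]
  have h2 : ∀ j : Fin 3, ENNReal.ofReal ((⟪(EuclideanSpace.single j (1 : ℝ) : E3), w⟫_ℝ) ^ 2 / c ^ 2)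
      ≤ (gDist Ω (EuclideanSpace.single j (1 : ℝ)) x)⁻¹ ^ 2 := by
    intro j
    set ej : E3 := EuclideanSpace.single j (1 : ℝ) with hej
    set q : ℝ := ⟪ej, w⟫_ℝ with hq
    rcases eq_or_ne q 0 with hq0 | hq0
    · rw [hq0]; simp
    have h3 : x + (c / q) • ej ∉ Ω := by
      intro hin
      have := hf _ hin
      rw [map_add, map_smul, smul_eq_mul, hL ej, ← hq, div_mul_cancel₀ _ hq0, hc] at this
      linarith
    have h4 : gDist Ω ej x ≤ ENNReal.ofReal (c / |q|) := by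
      refine (infEDist_le_edist_of_mem (s := {s : ℝ | x + s • ej ∉ Ω}) h3).trans ?_
      rw [edist_dist, dist_zero_left, Real.norm_eq_abs, abs_div, abs_of_pos hc0]
    have hq1 : 0 < |q| := abs_pos.2 hq0
    have h5 : (ENNReal.ofReal (c / |q|))⁻¹ ≤ (gDist Ω ej x)⁻¹ := ENNReal.inv_le_inv.2 h4
    have h6 : (ENNReal.ofReal (c / |q|))⁻¹ ^ 2 ≤ (gDist Ω ej x)⁻¹ ^ 2 :=
      pow_le_pow_left₀ zero_le h5 2
    refine le_trans (le_of_eq ?_) h6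
    rw [← ENNReal.ofReal_inv_of_pos (by positivity), ← ENNReal.ofReal_pow (by positivity)]
    congr 1
    rw [inv_div, div_pow, sq_abs]
  calc (infEDist x Ωᶜ)⁻¹ ^ 2 = ENNReal.ofReal (1 / d ^ 2) := by
        rw [h1, ← ENNReal.ofReal_inv_of_pos hd0, ← ENNReal.ofReal_pow (by positivity), inv_pow,
          one_div]
    _ ≤ ENNReal.ofReal (∑ j : Fin 3,
          (⟪(EuclideanSpace.single j (1 : ℝ) : E3), w⟫_ℝ) ^ 2 / c ^ 2) := by
        refine ENNReal.ofReal_le_ofReal ?_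
        rw [← Finset.sum_div, sum_single_sq, div_le_div_iff₀ (by positivity) (by positivity),
          one_mul, ← mul_pow]
        exact pow_le_pow_left₀ hc0.le hcd 2
    _ = ∑ j : Fin 3, ENNReal.ofReal ((⟪(EuclideanSpace.single j (1 : ℝ) : E3), w⟫_ℝ) ^ 2 / c ^ 2) :=
        ENNReal.ofReal_sum_of_nonneg fun j _ => by positivity
    _ ≤ _ := Finset.sum_le_sum fun j _ => h2 j

theorem hardy_convex (hΩ : IsOpen Ω) (hb : Bornology.IsBounded Ω) (hcv : Convex ℝ Ω) :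
    HardyE Ω fun x => (infEDist x Ωᶜ)⁻¹ ^ 2 := by
  refine ⟨((continuous_infEDist.measurable).inv).pow_const 2, fun φ hφ hc hs => ?_⟩
  have hφ1 : ContDiff ℝ 1 φ := hφ.of_le (by exact_mod_cast le_top)
  have mφ : Measurable fun x => ENNReal.ofReal (φ x ^ 2) :=
    (hφ1.continuous.pow 2).measurable.ennreal_ofReal
  have cf : Continuous (fderiv ℝ φ) := hφ1.continuous_fderiv (by simp)
  have mk : ∀ e, Measurable fun x => (gDist Ω e x)⁻¹ ^ 2 * ENNReal.ofReal (φ x ^ 2) := fun e =>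
    (((measurable_lineDist_right hΩ e).inv).pow_const 2).mul mφ
  have mD : ∀ e : E3, Measurable fun x => ENNReal.ofReal ((fderiv ℝ φ x e) ^ 2) := fun e =>
    ((cf.clm_apply continuous_const).pow 2).measurable.ennreal_ofReal
  calc ∫⁻ x, (infEDist x Ωᶜ)⁻¹ ^ 2 * ENNReal.ofReal (φ x ^ 2)
      ≤ ∫⁻ x, ∑ j : Fin 3, (gDist Ω (EuclideanSpace.single j (1 : ℝ)) x)⁻¹ ^ 2
          * ENNReal.ofReal (φ x ^ 2) := by
        refine lintegral_mono fun x => ?_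
        show (infEDist x Ωᶜ)⁻¹ ^ 2 * ENNReal.ofReal (φ x ^ 2)
          ≤ ∑ j : Fin 3, (gDist Ω (EuclideanSpace.single j (1 : ℝ)) x)⁻¹ ^ 2
          * ENNReal.ofReal (φ x ^ 2)
        rw [← Finset.sum_mul]
        by_cases hx : x ∈ tsupport φ
        · exact mul_le_mul_left (convex_le hΩ hcv (hs hx)) _
        · rw [image_eq_zero_of_notMem_tsupport hx]; simp
    _ = ∑ j : Fin 3, ∫⁻ x, (gDist Ω (EuclideanSpace.single j (1 : ℝ)) x)⁻¹ ^ 2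
          * ENNReal.ofReal (φ x ^ 2) := lintegral_finsetSum _ fun j _ => mk _
    _ ≤ ∑ j : Fin 3, 4 * ∫⁻ x, ENNReal.ofReal ((fderiv ℝ φ x (EuclideanSpace.single j (1 : ℝ))) ^ 2) :=
        Finset.sum_le_sum fun j _ => hardy_dir hΩ hb _ hφ1 hc hs
    _ = 4 * ∫⁻ x, ∑ j : Fin 3, ENNReal.ofReal ((fderiv ℝ φ x (EuclideanSpace.single j (1 : ℝ))) ^ 2) := by
        rw [← Finset.mul_sum, lintegral_finsetSum _ fun j _ => mD _]
    _ = 4 * ∫⁻ x, ENNReal.ofReal (‖fderiv ℝ φ x‖ ^ 2) := by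
        congr 1
        refine lintegral_congr fun x => ?_
        obtain ⟨w, hw, hL⟩ := riesz (fderiv ℝ φ x)
        rw [← ENNReal.ofReal_sum_of_nonneg fun j _ => by positivity, ← hw, ← sum_single_sq]
        simp_rw [hL]

end Pool.Agent.X187.HB
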